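import Pool.Graph.R_seed8.H494R3.GT.NoSOS

set_option autoImplicit false

/-!
# Decomposition of a graph of bounded degree into finitely many involutions
-/

namespace Pool.Agent.KS6_80.GT

/-- greedy colouring of a countable relation with bounded degrees -/
theorem exists_color {P : Type} (e : P → ℕ) (he : Function.Injective e) (r : P → P → Prop)
    (hr : ∀ x y, r x y → r y x) (k : ℕ) (hk : ∀ x, {y | r x y}.Finite ∧ {y | r x y}.ncard ≤ k) :
    ∃ c : P → Fin (k + 1), ∀ x y, x ≠ y → r x y → c x ≠ c y := by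
  classical
  let c : P → ℕ := (measure e).wf.fix fun x ih =>
    sInf {n : ℕ | ∀ (y : P) (h : (measure e).rel y x), r x y → ih y h ≠ n}
  have hc : ∀ x, c x = sInf {n : ℕ | ∀ y, e y < e x → r x y → c y ≠ n} := by
    intro x
    exact (measure e).wf.fix_eq _ x
  have key : ∀ x, ∃ n ≤ k, n ∈ {n : ℕ | ∀ y, e y < e x → r x y → c y ≠ n} := by
    intro x
    by_contra hcon
    push Not at hcon
    have h1 : ∀ n ∈ Finset.range (k + 1), n ∈ (hk x).1.toFinset.image c := by
      intro n hn
      have h2 := hcon n (by have := Finset.mem_range.mp hn; omega)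
      rw [Set.mem_ofPred_eq] at h2
      push Not at h2
      obtain ⟨y, _, hy, hyn⟩ := h2
      exact Finset.mem_image.mpr ⟨y, by simpa using hy, hyn⟩
    have h3 := Finset.card_le_card (show Finset.range (k + 1) ⊆ _ from h1)
    rw [Finset.card_range] at h3
    have h4 := Finset.card_image_le (s := (hk x).1.toFinset) (f := c)
    rw [← Set.ncard_eq_toFinset_card _ (hk x).1] at h4
    have := (hk x).2
    omega
  have hle : ∀ x, c x ≤ k := by
    intro x
    obtain ⟨n, hn, hn'⟩ := key x
    rw [hc x]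
    exact (Nat.sInf_le hn').trans hn
  have hmem : ∀ x y, e y < e x → r x y → c y ≠ c x := by
    intro x
    have h : c x ∈ {n : ℕ | ∀ y, e y < e x → r x y → c y ≠ n} := by
      obtain ⟨n, _, hn'⟩ := key x
      have h2 := Nat.sInf_mem (s := {n : ℕ | ∀ y, e y < e x → r x y → c y ≠ n}) ⟨n, hn'⟩
      rwa [← hc x] at h2
    exact h
  refine ⟨fun x => ⟨c x, Nat.lt_succ_of_le (hle x)⟩, ?_⟩
  intro x y hxy hrxy h
  have h' : c x = c y := congrArg Fin.val h
  rcases lt_trichotomy (e x) (e y) with h1 | h1 | h1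
  · exact hmem y x h1 (hr x y hrxy) h'
  · exact hxy (he h1)
  · exact hmem x y h1 hrxy h'.symm

/-- A finite family of involutions whose graphs partition the edges of a graph. -/
structure Invs {P : Type} (Gr : SimpleGraph P) where
  J : Type
  fin : Fintype J
  t : J → Equiv.Perm P
  inv : ∀ j x, t j (t j x) = x
  adj : ∀ j x, t j x ≠ x → Gr.Adj x (t j x)
  ex : ∀ x y, Gr.Adj x y → ∃ j, t j x = y
  uniq : ∀ j j' x, t j x ≠ x → t j x = t j' x → j = j'

theorem exists_invs {P : Type} (Gr : SimpleGraph P) (e : P → ℕ) (he : Function.Injective e)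
    (d : ℕ) (hd : ∀ x, (Gr.neighborSet x).Finite ∧ (Gr.neighborSet x).ncard ≤ d) :
    Nonempty (Invs Gr) := by
  classical
  let r : P → P → Prop := fun x y => Gr.Adj x y ∨ ∃ z, Gr.Adj x z ∧ Gr.Adj z y
  have hr : ∀ x y, r x y → r y x := by
    rintro x y (h | ⟨z, h1, h2⟩)
    · exact Or.inl h.symm
    · exact Or.inr ⟨z, h2.symm, h1.symm⟩
  have hk : ∀ x, {y | r x y}.Finite ∧ {y | r x y}.ncard ≤ d + d * d := by
    intro x
    set N : P → Finset P := fun z => (hd z).1.toFinset with hN
    have hNc : ∀ z, (N z).card ≤ d := by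
      intro z
      rw [hN, ← Set.ncard_eq_toFinset_card _ (hd z).1]
      exact (hd z).2
    have hNm : ∀ z y, y ∈ N z ↔ Gr.Adj z y := by
      intro z y
      rw [hN]
      simp
    have hsub : {y | r x y} ⊆ ((N x ∪ (N x).biUnion N : Finset P) : Set P) := by
      rintro y (h | ⟨z, h1, h2⟩)
      · simp only [Finset.coe_union, Set.mem_union, Finset.mem_coe]
        left; exact (hNm _ _).mpr h
      · simp only [Finset.coe_union, Set.mem_union, Finset.mem_coe, Finset.mem_biUnion]
        right; exact ⟨z, (hNm _ _).mpr h1, (hNm _ _).mpr h2⟩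
    refine ⟨(Finset.finite_toSet _).subset hsub, ?_⟩
    refine (Set.ncard_le_ncard hsub (Finset.finite_toSet _)).trans ?_
    rw [Set.ncard_coe_finset]
    refine (Finset.card_union_le _ _).trans ?_
    refine Nat.add_le_add (hNc x) ?_
    refine (Finset.card_biUnion_le_card_mul _ _ d fun z _ => hNc z).trans ?_
    exact Nat.mul_le_mul_right d (hNc x)
  obtain ⟨n, c, hc⟩ : ∃ (n : ℕ) (c : P → Fin n), ∀ x y, x ≠ y → r x y → c x ≠ c y :=
    ⟨_, exists_color e he r hr (d + d * d) hk⟩
  -- partner relation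
  let R : Fin n × Fin n → P → P → Prop := fun p x y =>
    Gr.Adj x y ∧ p.1 < p.2 ∧ ((c x = p.1 ∧ c y = p.2) ∨ (c x = p.2 ∧ c y = p.1))
  have hRs : ∀ p x y, R p x y → R p y x := by
    rintro p x y ⟨h1, h2, h3⟩
    exact ⟨h1.symm, h2, h3.symm.imp And.symm And.symm⟩
  have hRu : ∀ p x y y', R p x y → R p x y' → y = y' := by
    rintro p x y y' ⟨h1, h2, h3⟩ ⟨h1', h2', h3'⟩
    by_contra hne
    have h4 : c y = c y' := by
      rcases h3 with ⟨a, b⟩ | ⟨a, b⟩ <;> rcases h3' with ⟨a', b'⟩ | ⟨a', b'⟩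
      · rw [b, b']
      · rw [a] at a'; exact absurd a' h2.ne
      · rw [a] at a'; exact absurd a'.symm h2.ne
      · rw [b, b']
    exact hc y y' hne (Or.inr ⟨x, h1.symm, h1'⟩) h4
  let f : Fin n × Fin n → P → P := fun p x => if h : ∃ y, R p x y then h.choose else x
  have hf : ∀ p x y, R p x y → f p x = y := by
    intro p x y h
    have hex : ∃ y, R p x y := ⟨y, h⟩
    show (if h : ∃ y, R p x y then h.choose else x) = y
    rw [dif_pos hex]
    exact hRu p x _ _ hex.choose_spec h
  have hf' : ∀ p x, (¬ ∃ y, R p x y) → f p x = x := by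
    intro p x h
    show (if h : ∃ y, R p x y then h.choose else x) = x
    rw [dif_neg h]
  have hff : ∀ p x, f p (f p x) = x := by
    intro p x
    by_cases h : ∃ y, R p x y
    · obtain ⟨y, hy⟩ := h
      rw [hf p x y hy, hf p y x (hRs p x y hy)]
    · rw [hf' p x h, hf' p x h]
  have hmove : ∀ p x, f p x ≠ x → R p x (f p x) := by
    intro p x h
    by_cases h2 : ∃ y, R p x y
    · obtain ⟨y, hy⟩ := h2
      rw [hf p x y hy]; exact hy
    · exact absurd (hf' p x h2) h
  refine ⟨⟨Fin n × Fin n, inferInstance, fun p => ⟨f p, f p, hff p, hff p⟩, hff,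
    fun p x h => (hmove p x h).1, ?_, ?_⟩⟩
  · intro x y h
    have hne : c x ≠ c y := hc x y h.ne (Or.inl h)
    rcases lt_or_gt_of_ne hne with h1 | h1
    · exact ⟨(c x, c y), hf _ _ _ ⟨h, h1, Or.inl ⟨rfl, rfl⟩⟩⟩
    · exact ⟨(c y, c x), hf _ _ _ ⟨h, h1, Or.inr ⟨rfl, rfl⟩⟩⟩
  · intro p p' x h h'
    have h1 := hmove p x h
    have h2 : f p x = f p' x := h'
    have h3 := hmove p' x (by rw [← h2]; exact h)
    rw [← h2] at h3
    obtain ⟨_, h4, h5⟩ := h1
    obtain ⟨_, h6, h7⟩ := h3
    rcases h5 with ⟨a, b⟩ | ⟨a, b⟩ <;> rcases h7 with ⟨a', b'⟩ | ⟨a', b'⟩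
    · exact Prod.ext (a.symm.trans a') (b.symm.trans b')
    · exfalso
      rw [← a, ← b] at h4
      rw [← a', ← b'] at h6
      exact lt_asymm h4 h6
    · exfalso
      rw [← a, ← b] at h4
      rw [← a', ← b'] at h6
      exact lt_asymm h4 h6
    · exact Prod.ext (b.symm.trans b') (a.symm.trans a')

/-- The sum over neighbours is a sum over the involutions. -/
theorem Invs.finsum_eq {P : Type} {Gr : SimpleGraph P} (I : Invs Gr) (v : P → ℂ) (x : P) :
    ∑ᶠ y ∈ Gr.neighborSet x, (v x - v y) = letI := I.fin; ∑ j, (v x - v (I.t j x)) := by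
  classical
  letI := I.fin
  set J0 : Finset I.J := Finset.univ.filter fun j => I.t j x ≠ x with hJ0
  have h1 : Gr.neighborSet x = (fun j : I.J => I.t j x) '' (J0 : Set I.J) := by
    ext y
    rw [SimpleGraph.mem_neighborSet]
    constructor
    · intro h
      obtain ⟨j, hj⟩ := I.ex x y h
      refine ⟨j, ?_, hj⟩
      rw [hJ0, Finset.coe_filter]
      refine ⟨Finset.mem_univ j, ?_⟩
      rw [hj]; exact h.ne'
    · rintro ⟨j, hj, rfl⟩
      rw [hJ0, Finset.coe_filter] at hj
      exact I.adj j x hj.2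
  rw [h1, finsum_mem_image, finsum_mem_coe_finset]
  · rw [hJ0, Finset.sum_filter]
    apply Finset.sum_congr rfl
    intro j _
    split_ifs with h
    · rfl
    · push Not at h
      rw [h, sub_self]
  · intro j hj j' hj' h
    rw [hJ0, Finset.coe_filter] at hj
    exact I.uniq j j' x hj.2 h

end Pool.Agent.KS6_80.GT
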