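import Pool.Graph.R_seed8.H494R3.GT.PropL
import Pool.Graph.R_seed8.H494R3.GT.Kaz
import Pool.Graph.R_seed8.H494R3.GT.Heis
import Pool.Agent.KS6_80.GT.Col

set_option autoImplicit false

/-!
# Operators of finite propagation on a graph, and absorption of permutations
-/

namespace Pool.Agent.KS6_80.GT

open Pool.Agent.H494R3.GT
open scoped Pointwise

variable {P : Type}

/-- operators of finite propagation for a graph -/
def alg (Gr : SimpleGraph P) : StarSubalgebra ℂ (L2 P →L[ℂ] L2 P) where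
  carrier := {T | ∃ R : ℕ, PropLE Gr T R}
  mul_mem' := by
    rintro T S ⟨R, h⟩ ⟨R', h'⟩
    exact ⟨R + R', PropLE.mul h h'⟩
  add_mem' := by
    rintro T S ⟨R, h⟩ ⟨R', h'⟩
    exact ⟨max R R', PropLE.add (PropLE.mono h (le_max_left _ _))
      (PropLE.mono h' (le_max_right _ _))⟩
  algebraMap_mem' c := ⟨1, by
    have := PropLE.one_smul (Gr := Gr) c
    rwa [← Algebra.algebraMap_eq_smul_one] at this⟩
  star_mem' := by
    rintro T ⟨R, h⟩
    exact ⟨R, PropLE.star h⟩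

lemma edist_anti {Gr Gr' : SimpleGraph P} (h : Gr ≤ Gr') (x y : P) :
    Gr'.edist x y ≤ Gr.edist x y := by
  by_cases hr : Gr.Reachable x y
  · obtain ⟨p, hp⟩ := hr.exists_walk_length_eq_edist
    rw [← hp, ← SimpleGraph.Walk.length_mapLe h p]
    exact SimpleGraph.edist_le _
  · rw [SimpleGraph.edist_eq_top_of_not_reachable hr]
    exact le_top

lemma alg_mono {Gr Gr' : SimpleGraph P} (h : Gr ≤ Gr') : alg Gr ≤ alg Gr' := by
  rintro T ⟨R, hR⟩
  exact ⟨R, fun x y hxy => hR x y (hxy.trans (edist_anti h x y))⟩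

lemma PropLE_MM' (Gr : SimpleGraph P) (A : Set P) : PropLE Gr (MM A) 1 := fun x y hxy => by
  classical
  rw [MM_dl]
  have hne : y ≠ x := by
    rintro rfl
    rw [SimpleGraph.edist_self] at hxy
    exact absurd hxy (by simp)
  split_ifs
  · rw [dl_inner, if_neg hne]
  · rw [inner_zero_right]

lemma MM_mem (Gr : SimpleGraph P) (A : Set P) : MM A ∈ alg Gr := ⟨1, PropLE_MM' Gr A⟩

lemma PropLE_UU' {Gr : SimpleGraph P} {τ : Equiv.Perm P} {R : ℕ}
    (h : ∀ x, Gr.edist x (τ x) ≤ R) : PropLE Gr (UU τ) (R + 1) := fun x y hxy => by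
  classical
  rw [UU_dl, dl_inner, if_neg]
  rintro rfl
  have h1 := hxy.trans (h x)
  exact absurd h1 (by push_cast; exact not_le.mpr (ENat.lt_add_one_iff (by simp) |>.mpr le_rfl))

lemma UU_mem {Gr : SimpleGraph P} {τ : Equiv.Perm P} {R : ℕ}
    (h : ∀ x, Gr.edist x (τ x) ≤ R) : UU τ ∈ alg Gr := ⟨R + 1, PropLE_UU' h⟩

section absorb
variable {B : Type*} [CStarAlgebra B]
  (𝒜 : StarSubalgebra ℂ (L2 P →L[ℂ] L2 P)) (π : 𝒜 →⋆ₐ[ℂ] B) (p : B) (hMM : ∀ A, MM A ∈ 𝒜)

include hMM in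
/-- Permutations that are piecewise absorbed, with finitely many pieces, are absorbed. -/
theorem absorb_piece (W : Set (Equiv.Perm P)) (hW : W.Finite) (hWa : ∀ w ∈ W, w ∈ absorb 𝒜 π p)
    (τ : Equiv.Perm P) (hτ : UU τ ∈ 𝒜) (h : ∀ x, ∃ w ∈ W, τ x = w x) : τ ∈ absorb 𝒜 π p := by
  classical
  refine ⟨hτ, ?_⟩
  choose w hw hwx using h
  set S := hW.toFinset with hS
  let A : Equiv.Perm P → Set P := fun g => {x | w x = g}
  have hd : ∀ i ∈ S, ∀ j ∈ S, i ≠ j → Disjoint (A i) (A j) := by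
    intro i _ j _ hij
    rw [Set.disjoint_left]
    intro x hx hx'
    exact hij (hx.symm.trans hx')
  have hun : (⋃ g ∈ S, A g) = Set.univ := by
    ext x
    simp only [Set.mem_iUnion, Set.mem_univ, iff_true]
    exact ⟨w x, by rw [hS]; simpa using hw x, rfl⟩
  have hd' : ∀ i ∈ S, ∀ j ∈ S, i ≠ j → Disjoint (τ '' A i) (τ '' A j) := by
    intro i hi j hj hij
    exact (Set.disjoint_image_iff τ.injective).mpr (hd i hi j hj hij)
  have hun' : (⋃ g ∈ S, τ '' A g) = Set.univ := by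
    rw [← Set.image_iUnion₂, hun, Set.image_univ, Equiv.range_eq_univ]
  have e1 : (1 : 𝒜) = ∑ g ∈ S, ⟨MM (A g), hMM _⟩ := by
    apply Subtype.ext
    rw [AddSubmonoidClass.coe_finsetSum]
    show (1 : L2 P →L[ℂ] L2 P) = ∑ g ∈ S, MM (A g)
    rw [← MM_biUnion S A hd, hun, MM_univ]
  have e2 : (1 : 𝒜) = ∑ g ∈ S, ⟨MM (τ '' A g), hMM _⟩ := by
    apply Subtype.ext
    rw [AddSubmonoidClass.coe_finsetSum]
    show (1 : L2 P →L[ℂ] L2 P) = ∑ g ∈ S, MM (τ '' A g)
    rw [← MM_biUnion S (fun g => τ '' A g) hd', hun', MM_univ]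
  have key : ∀ g ∈ S, π ⟨UU τ, hτ⟩ * (π ⟨MM (A g), hMM _⟩ * p) = π ⟨MM (τ '' A g), hMM _⟩ * p := by
    intro g hg
    have hgW : g ∈ W := by rw [hS] at hg; simpa using hg
    obtain ⟨h1, h2⟩ := absorb_MM 𝒜 π p hMM (hWa g hgW) (A g)
    have h3 : g '' A g = τ '' A g := by
      apply Set.image_congr
      intro x hx
      have hx' : w x = g := hx
      rw [hwx x, hx']
    rw [h3] at h2
    rw [← h2, ← mul_assoc, ← mul_assoc, ← map_mul, ← map_mul]
    congr 2
    apply Subtype.ext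
    show UU τ * MM (A g) = UU g * MM (A g)
    apply op_ext
    intro x
    rw [mul_ap, mul_ap]
    by_cases hx : x ∈ A g
    · have hx' : w x = g := hx
      rw [MM_dl_mem hx, UU_dl, UU_dl, hwx x, hx']
    · rw [MM_dl_notMem hx, map_zero, map_zero]
  calc π ⟨UU τ, hτ⟩ * p = π ⟨UU τ, hτ⟩ * (π 1 * p) := by rw [map_one, one_mul]
    _ = ∑ g ∈ S, π ⟨UU τ, hτ⟩ * (π ⟨MM (A g), hMM _⟩ * p) := by
        rw [e1, map_sum, Finset.sum_mul, Finset.mul_sum]
    _ = ∑ g ∈ S, π ⟨MM (τ '' A g), hMM _⟩ * p := Finset.sum_congr rfl key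
    _ = π 1 * p := by rw [e2, map_sum, Finset.sum_mul]
    _ = p := by rw [map_one, one_mul]

/-- words of length `r` in the involutions and the identity -/
def words {Gr : SimpleGraph P} (I : Invs Gr) (r : ℕ) : Set (Equiv.Perm P) :=
  (insert 1 (Set.range I.t)) ^ r

lemma words_finite {Gr : SimpleGraph P} (I : Invs Gr) (r : ℕ) : (words I r).Finite := by
  have := I.fin
  have h1 : (insert 1 (Set.range I.t) : Set (Equiv.Perm P)).Finite := (Set.finite_range _).insert _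
  induction r with
  | zero => rw [words, pow_zero]; exact Set.finite_one
  | succ r ih => rw [words, pow_succ]; exact Set.Finite.mul ih h1

lemma words_absorb {Gr : SimpleGraph P} (I : Invs Gr) (hI : ∀ j, I.t j ∈ absorb 𝒜 π p) (r : ℕ) :
    ∀ w ∈ words I r, w ∈ absorb 𝒜 π p := by
  induction r with
  | zero =>
    intro w hw
    rw [words, pow_zero, Set.mem_one] at hw
    rw [hw]; exact one_mem _
  | succ r ih =>
    intro w hw
    rw [words, pow_succ, Set.mem_mul] at hw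
    obtain ⟨a, ha, b, hb, rfl⟩ := hw
    refine mul_mem (ih a ha) ?_
    rcases hb with rfl | ⟨j, rfl⟩
    · exact one_mem _
    · exact hI j

lemma walk_word {Gr : SimpleGraph P} (I : Invs Gr) {x y : P} (q : Gr.Walk x y) :
    ∀ r, q.length ≤ r → ∃ w ∈ words I r, w x = y := by
  induction q with
  | nil =>
    intro r _
    refine ⟨1, ?_, rfl⟩
    have h1 : (1 : Equiv.Perm P) ∈ (insert 1 (Set.range I.t) : Set (Equiv.Perm P)) :=
      Set.mem_insert _ _
    exact Set.pow_subset_pow_right h1 (Nat.zero_le r) (by rw [pow_zero]; exact Set.one_mem_one)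
  | @cons x z y h q ih =>
    intro r hr
    rw [SimpleGraph.Walk.length_cons] at hr
    obtain ⟨r', rfl⟩ : ∃ r', r = r' + 1 := ⟨r - 1, by omega⟩
    obtain ⟨w, hw, e⟩ := ih r' (by omega)
    obtain ⟨j, hj⟩ := I.ex x z h
    refine ⟨w * I.t j, ?_, by rw [Equiv.Perm.mul_apply, hj, e]⟩
    rw [words, pow_succ]
    exact Set.mul_mem_mul hw (Set.mem_insert_of_mem _ ⟨j, rfl⟩)

lemma edist_word {Gr : SimpleGraph P} (I : Invs Gr) {x y : P} {r : ℕ} (h : Gr.edist x y ≤ r) :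
    ∃ w ∈ words I r, w x = y := by
  obtain ⟨q, hq⟩ := SimpleGraph.exists_walk_of_edist_ne_top
    (h.trans_lt (ENat.natCast_lt_top r)).ne
  refine walk_word I q r ?_
  rw [← hq] at h
  exact_mod_cast h

include hMM in
/-- All permutations of bounded displacement are absorbed. -/
theorem absorb_bdd {Gr : SimpleGraph P} (I : Invs Gr) (hI : ∀ j, I.t j ∈ absorb 𝒜 π p)
    (τ : Equiv.Perm P) (hτ : UU τ ∈ 𝒜) (r : ℕ) (h : ∀ x, Gr.edist x (τ x) ≤ r) :
    τ ∈ absorb 𝒜 π p := by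
  refine absorb_piece 𝒜 π p hMM (words I r) (words_finite I r) (words_absorb 𝒜 π p I hI r) τ hτ ?_
  intro x
  obtain ⟨w, hw, e⟩ := edist_word I (h x)
  exact ⟨w, hw, e.symm⟩

include hMM in
/-- Norm bound: if `K` absorbed translates of `Z` are disjoint then `K ‖M_Z p‖² ≤ 1`. -/
lemma norm_bound' (hp : p * p = p) (hps : star p = p) (Z : Set P) (K : ℕ)
    (g : ℕ → Equiv.Perm P) (hg : ∀ i < K, g i ∈ absorb 𝒜 π p)
    (hd : ∀ i < K, ∀ j < K, i ≠ j → Disjoint (g i '' Z) (g j '' Z)) :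
    (K : ℝ) * ‖π ⟨MM Z, hMM Z⟩ * p‖ ^ 2 ≤ 1 := by
  set z : B := π ⟨MM Z, hMM Z⟩ with hz
  have hproj : ∀ A, π ⟨MM A, hMM A⟩ * π ⟨MM A, hMM A⟩ = π ⟨MM A, hMM A⟩ := by
    intro A
    rw [← map_mul]
    congr 1
    exact Subtype.ext (MM_mul_self A)
  have hstar : ∀ A, star (π ⟨MM A, hMM A⟩) = π ⟨MM A, hMM A⟩ := by
    intro A
    rw [← map_star]
    congr 1
    exact Subtype.ext (star_MM A)
  have h1 : ∀ i < K, p * (π ⟨MM (g i '' Z), hMM _⟩ * p) = p * (z * p) := by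
    intro i hi
    exact absorb_PMP 𝒜 π p hMM hps (hg i hi) Z
  have h2 : (⟨MM (⋃ i ∈ Finset.range K, g i '' Z), hMM _⟩ : 𝒜)
      = ∑ i ∈ Finset.range K, ⟨MM (g i '' Z), hMM _⟩ := by
    apply Subtype.ext
    rw [AddSubmonoidClass.coe_finsetSum]
    show MM (⋃ i ∈ Finset.range K, g i '' Z) = ∑ i ∈ Finset.range K, MM (g i '' Z)
    rw [MM_biUnion]
    intro i hi j hj hij
    exact hd i (Finset.mem_range.mp hi) j (Finset.mem_range.mp hj) hij
  have h3 : p * (π ⟨MM (⋃ i ∈ Finset.range K, g i '' Z), hMM _⟩ * p) = K • (p * (z * p)) := by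
    rw [h2, map_sum, Finset.sum_mul, Finset.mul_sum,
      Finset.sum_congr rfl fun i hi => h1 i (Finset.mem_range.mp hi),
      Finset.sum_const, Finset.card_range]
  have h4 : ‖p‖ ≤ 1 := norm_proj_le hp hps
  have h5 : ‖p * (π ⟨MM (⋃ i ∈ Finset.range K, g i '' Z), hMM _⟩ * p)‖ ≤ 1 := by
    have a1 := norm_proj_le (hproj (⋃ i ∈ Finset.range K, g i '' Z)) (hstar _)
    calc _ ≤ ‖p‖ * (‖π ⟨MM (⋃ i ∈ Finset.range K, g i '' Z), hMM _⟩‖ * ‖p‖) := by
          refine (norm_mul_le _ _).trans ?_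
          gcongr
          exact norm_mul_le _ _
      _ ≤ 1 * (1 * 1) := by gcongr
      _ = 1 := by norm_num
  have h6 : ‖z * p‖ ^ 2 = ‖p * (z * p)‖ := by
    have : star (z * p) * (z * p) = p * (z * p) := by
      rw [star_mul, hps, hz, hstar, mul_assoc, ← mul_assoc (π ⟨MM Z, hMM Z⟩), hproj]
    rw [← this, CStarRing.norm_star_mul_self, sq]
  rw [h6]
  rw [h3] at h5
  have h7 : ‖K • (p * (z * p))‖ = K * ‖p * (z * p)‖ := by
    rw [← Nat.cast_smul_eq_nsmul ℝ, norm_smul]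
    simp
  rwa [h7] at h5

include hMM in
/-- A sparse perturbation is absorbed. -/
theorem sparse_absorb' (hp : p * p = p) (hps : star p = p)
    (σ : Equiv.Perm P) (hσ : UU σ ∈ 𝒜) (Y : Set P) (hY : ∀ x, x ∉ Y → σ x = x)
    (bl : P → ℕ) (hσb : ∀ x, bl (σ x) = bl x)
    (hfin : ∀ N, ∀ σ' : Equiv.Perm P, (∀ x, bl x < N → σ' x = σ x) →
      (∀ x, N ≤ bl x → σ' x = x) → σ' ∈ absorb 𝒜 π p)
    (hsep : ∀ K : ℕ, ∃ N : ℕ, ∃ g : ℕ → Equiv.Perm P, (∀ i < K, g i ∈ absorb 𝒜 π p) ∧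
      ∀ x ∈ Y, ∀ y ∈ Y, N ≤ bl x → N ≤ bl y → ∀ i < K, ∀ j < K, g i x = g j y → i = j) :
    σ ∈ absorb 𝒜 π p := by
  classical
  refine ⟨hσ, ?_⟩
  set s : B := π ⟨UU σ, hσ⟩ with hs
  have hs1 : star s * s = 1 := by
    rw [hs, ← map_star, ← map_mul]
    have : star (⟨UU σ, hσ⟩ : 𝒜) * ⟨UU σ, hσ⟩ = 1 := Subtype.ext (by
      show star (UU σ) * UU σ = 1
      rw [star_UU, UU_mul, inv_mul_cancel, UU_one])
    rw [this, map_one]
  have hsn : ‖s - 1‖ ≤ 2 := by
    have a1 := norm_unit_le hs1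
    have a2 : ‖(1 : B)‖ ≤ 1 := norm_proj_le (one_mul 1) (star_one B)
    calc ‖s - 1‖ ≤ ‖s‖ + ‖(1 : B)‖ := norm_sub_le _ _
      _ ≤ 1 + 1 := add_le_add a1 a2
      _ = 2 := by norm_num
  have key : ∀ K : ℕ, (K : ℝ) * ‖(s - 1) * p‖ ^ 2 ≤ 4 := by
    intro K
    obtain ⟨N, g, hg, hN⟩ := hsep K
    set F : Set P := {x | bl x < N} with hF
    set Z : Set P := {x | N ≤ bl x} ∩ Y with hZ
    set Z' : Set P := {x | N ≤ bl x} \ Y with hZ'
    -- the permutation restricted to finitely many blocks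
    have hinv : ∀ x, bl (σ⁻¹ x) = bl x := by
      intro x
      have := hσb (σ⁻¹ x)
      rw [show σ (σ⁻¹ x) = x by simp] at this
      exact this.symm
    let σ' : Equiv.Perm P :=
      { toFun := fun x => if bl x < N then σ x else x
        invFun := fun x => if bl x < N then σ⁻¹ x else x
        left_inv := by
          intro x
          by_cases hx : bl x < N
          · have : bl (σ x) < N := by rw [hσb]; exact hx
            simp only [if_pos hx, if_pos this]; simp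
          · simp only [if_neg hx]
        right_inv := by
          intro x
          by_cases hx : bl x < N
          · have : bl (σ⁻¹ x) < N := by rw [hinv]; exact hx
            simp only [if_pos hx, if_pos this]; simp
          · simp only [if_neg hx] }
    have hσ'1 : ∀ x, bl x < N → σ' x = σ x := fun x hx => if_pos hx
    have hσ'2 : ∀ x, N ≤ bl x → σ' x = x := fun x hx => if_neg (not_lt.mpr hx)
    have hσ' := hfin N σ' hσ'1 hσ'2
    have hFp : s * (π ⟨MM F, hMM _⟩ * p) = π ⟨MM F, hMM _⟩ * p := by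
      obtain ⟨h1, h2⟩ := absorb_MM 𝒜 π p hMM hσ' F
      have h3 : σ' '' F = F := by
        ext x
        constructor
        · rintro ⟨y, hy, rfl⟩
          show bl (σ' y) < N
          rw [hσ'1 y hy, hσb]; exact hy
        · intro hx
          refine ⟨σ⁻¹ x, ?_, ?_⟩
          · show bl (σ⁻¹ x) < N
            rw [hinv]; exact hx
          · rw [hσ'1 _ (by rw [hinv]; exact hx)]; simp
      rw [h3] at h2
      conv_rhs => rw [← h2]
      rw [hs, ← mul_assoc, ← mul_assoc, ← map_mul, ← map_mul]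
      congr 2
      apply Subtype.ext
      show UU σ * MM F = UU σ' * MM F
      apply op_ext
      intro x
      rw [mul_ap, mul_ap]
      by_cases hx : x ∈ F
      · rw [MM_dl_mem hx, UU_dl, UU_dl, hσ'1 x hx]
      · rw [MM_dl_notMem hx, map_zero, map_zero]
    have hZ'p : s * (π ⟨MM Z', hMM _⟩ * p) = π ⟨MM Z', hMM _⟩ * p := by
      have e1 : (⟨UU σ, hσ⟩ : 𝒜) * ⟨MM Z', hMM _⟩ = ⟨MM Z', hMM _⟩ :=
        Subtype.ext (UU_MM_fix fun x hx => hY x hx.2)
      rw [hs, ← mul_assoc, ← map_mul, e1]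
    have hone : (1 : 𝒜) = ⟨MM F, hMM _⟩ + (⟨MM Z, hMM _⟩ + ⟨MM Z', hMM _⟩) := by
      apply Subtype.ext
      show (1 : L2 P →L[ℂ] L2 P) = MM F + (MM Z + MM Z')
      rw [← MM_union, ← MM_union, ← MM_univ]
      · congr 1
        ext x
        simp only [Set.mem_univ, true_iff, hF, hZ, hZ', Set.mem_union, Set.mem_ofPred_eq,
          Set.mem_inter_iff, Set.mem_sdiff]
        by_cases h1 : bl x < N
        · left; exact h1
        · right
          by_cases h2 : x ∈ Y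
          · left; exact ⟨not_lt.mp h1, h2⟩
          · right; exact ⟨not_lt.mp h1, h2⟩
      · rw [Set.disjoint_left]
        rintro x hx1 (hx2 | hx2)
        · exact absurd (show N ≤ bl x from hx2.1) (not_le.mpr hx1)
        · exact absurd (show N ≤ bl x from hx2.1) (not_le.mpr hx1)
      · rw [Set.disjoint_left]
        rintro x hx1 hx2
        exact hx2.2 hx1.2
    have hdec : (s - 1) * p = (s - 1) * (π ⟨MM Z, hMM _⟩ * p) := by
      have e1 : p = π ⟨MM F, hMM _⟩ * p + (π ⟨MM Z, hMM _⟩ * p + π ⟨MM Z', hMM _⟩ * p) := by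
        rw [← add_mul, ← add_mul, ← map_add, ← map_add, ← hone, map_one, one_mul]
      conv_lhs => rw [e1]
      rw [mul_add, mul_add, sub_mul s 1 (π ⟨MM F, hMM _⟩ * p), one_mul, hFp, sub_self,
        sub_mul s 1 (π ⟨MM Z', hMM _⟩ * p), one_mul, hZ'p, sub_self, zero_add, add_zero]
    have hb := norm_bound' 𝒜 π p hMM hp hps Z K g hg (by
      intro i hi j hj hij
      rw [Set.disjoint_left]
      rintro _ ⟨x, hx, rfl⟩ ⟨y, hy, hxy⟩
      exact hij (hN x hx.2 y hy.2 hx.1 hy.1 i hi j hj hxy.symm))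
    have hle : ‖(s - 1) * p‖ ≤ 2 * ‖π ⟨MM Z, hMM _⟩ * p‖ := by
      rw [hdec]
      exact (norm_mul_le _ _).trans (by gcongr)
    have h0 := norm_nonneg ((s - 1) * p)
    have h1 := norm_nonneg (π ⟨MM Z, hMM _⟩ * p)
    calc (K : ℝ) * ‖(s - 1) * p‖ ^ 2 ≤ K * (2 * ‖π ⟨MM Z, hMM _⟩ * p‖) ^ 2 := by gcongr
      _ = 4 * (K * ‖π ⟨MM Z, hMM _⟩ * p‖ ^ 2) := by ring
      _ ≤ 4 * 1 := by gcongr
      _ = 4 := by norm_num
  have h0 : ‖(s - 1) * p‖ = 0 := by
    by_contra hne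
    have hpos : 0 < ‖(s - 1) * p‖ ^ 2 := by positivity
    obtain ⟨K, hK⟩ := exists_nat_gt (4 / ‖(s - 1) * p‖ ^ 2)
    rw [div_lt_iff₀ hpos] at hK
    exact absurd (key K) (not_le.mpr hK)
  have h1 := norm_eq_zero.mp h0
  rw [sub_mul, one_mul, sub_eq_zero] at h1
  exact h1

end absorb

end Pool.Agent.KS6_80.GT
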