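import Pool.Agent.KS6_80.GT.Ext

set_option autoImplicit false

/-!
# Graphs with components of bounded size
-/

namespace Pool.Agent.KS6_80.GT

open Pool.Agent.H494R3.GT
open scoped Pointwise

lemma sqrt_ex {A : Type} [CStarAlgebra A] [PartialOrder A] [StarOrderedRing A] (a : A)
    (ha : 0 ≤ a) : ∃ s : A, star s = s ∧ s * s = a ∧ ∀ b, Commute a b → Commute s b := by
  refine ⟨CFC.sqrt a, IsSelfAdjoint.of_nonneg (CFC.sqrt_nonneg a), CFC.sqrt_mul_sqrt_self a ha, ?_⟩
  intro b hb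
  rw [CFC.sqrt_eq_cfc]
  exact hb.cfc_nnreal _

lemma sqrt_op {H : Type} [NormedAddCommGroup H] [InnerProductSpace ℂ H] [CompleteSpace H]
    (a : H →L[ℂ] H) (ha : 0 ≤ a) :
    ∃ s : H →L[ℂ] H, star s = s ∧ s * s = a ∧ ∀ b, Commute a b → Commute s b := sqrt_ex a ha

section loc
variable {P : Type} {Gr : SimpleGraph P} (I : Invs Gr)

/-- pointwise Laplacian -/
noncomputable def Invs.df (f : P → ℂ) (x : P) : ℂ := letI := I.fin; ∑ j, (f x - f (I.t j x))

/-- pointwise energy -/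
noncomputable def Invs.en (f : P → ℂ) (x : P) : ℝ := letI := I.fin; ∑ j, ‖f x - f (I.t j x)‖ ^ 2

lemma sum_t {C : Finset P} (hC : ∀ j, ∀ x ∈ C, I.t j x ∈ C) (j : I.J) (F : P → ℂ) :
    ∑ x ∈ C, F (I.t j x) = ∑ x ∈ C, F x :=
  Finset.sum_nbij' (fun x => I.t j x) (fun x => I.t j x) (fun x hx => hC j x hx)
    (fun x hx => hC j x hx) (fun x _ => I.inv j x) (fun x _ => I.inv j x) (fun _ _ => rfl)

lemma sum_df {C : Finset P} (hC : ∀ j, ∀ x ∈ C, I.t j x ∈ C) (f : P → ℂ) :
    ∑ x ∈ C, I.df f x = 0 := by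
  letI := I.fin
  unfold Invs.df
  rw [Finset.sum_comm]
  apply Finset.sum_eq_zero
  intro j _
  rw [Finset.sum_sub_distrib, sum_t I hC j f, sub_self]

lemma sum_en {C : Finset P} (hC : ∀ j, ∀ x ∈ C, I.t j x ∈ C) (f : P → ℂ) :
    ∑ x ∈ C, (starRingEnd ℂ (I.df f x)) * f x = ((∑ x ∈ C, I.en f x : ℝ) : ℂ) / 2 := by
  letI := I.fin
  have h1 : ∀ j, ∑ x ∈ C, (starRingEnd ℂ (f x - f (I.t j x))) * f x
      = ((∑ x ∈ C, ‖f x - f (I.t j x)‖ ^ 2 : ℝ) : ℂ) / 2 := by
    intro j
    have h2 := sum_t I hC j (fun x => (starRingEnd ℂ (f x - f (I.t j x))) * f x)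
    simp only [I.inv] at h2
    have h3 : ((∑ x ∈ C, ‖f x - f (I.t j x)‖ ^ 2 : ℝ) : ℂ)
        = ∑ x ∈ C, ((starRingEnd ℂ (f x - f (I.t j x))) * f x
          + (starRingEnd ℂ (f (I.t j x) - f x)) * f (I.t j x)) := by
      push_cast
      apply Finset.sum_congr rfl
      intro x _
      rw [← Complex.conj_mul', map_sub, map_sub]
      ring
    rw [h3, Finset.sum_add_distrib, h2]
    ring
  unfold Invs.df Invs.en
  simp only [map_sum, Finset.sum_mul]
  rw [Finset.sum_comm]
  simp only [h1]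
  rw [← Finset.sum_div]
  congr 1
  rw [Finset.sum_comm (s := C)]
  push_cast
  rfl

lemma en_nonneg (f : P → ℂ) (x : P) : 0 ≤ I.en f x := by
  letI := I.fin
  exact Finset.sum_nonneg fun j _ => by positivity

lemma step_le {C : Finset P} (f : P → ℂ) {x y : P} (hx : x ∈ C) (h : Gr.Adj x y) :
    ‖f x - f y‖ ^ 2 ≤ ∑ x ∈ C, I.en f x := by
  letI := I.fin
  obtain ⟨j, hj⟩ := I.ex x y h
  refine le_trans ?_ (Finset.single_le_sum (f := fun x => I.en f x)
    (fun x _ => en_nonneg I f x) hx)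
  have := Finset.single_le_sum (f := fun j => ‖f x - f (I.t j x)‖ ^ 2)
    (fun j _ => by positivity) (Finset.mem_univ j)
  rw [← hj]
  exact this

lemma walk_le {C : Finset P} (hC : ∀ x ∈ C, ∀ y, Gr.Adj x y → y ∈ C) (f : P → ℂ) {x y : P}
    (q : Gr.Walk x y) (hx : x ∈ C) :
    ‖f x - f y‖ ≤ q.length * Real.sqrt (∑ x ∈ C, I.en f x) := by
  induction q with
  | nil => simp
  | @cons x z y h q ih =>
    have h1 := ih (hC x hx z h)
    have h2 : ‖f x - f z‖ ≤ Real.sqrt (∑ x ∈ C, I.en f x) := Real.le_sqrt_of_sq_le (step_le I f hx h)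
    rw [SimpleGraph.Walk.length_cons]
    push_cast
    calc ‖f x - f y‖ = ‖(f x - f z) + (f z - f y)‖ := by congr 1; ring
      _ ≤ ‖f x - f z‖ + ‖f z - f y‖ := norm_add_le _ _
      _ ≤ _ := by linarith

lemma local_gap {C : Finset P} (hC : ∀ x ∈ C, ∀ y, Gr.Adj x y → y ∈ C)
    (hr : ∀ x ∈ C, ∀ y ∈ C, Gr.Reachable x y) {M : ℕ} (hM : C.card ≤ M) (f : P → ℂ) :
    ∑ x ∈ C, I.en f x ≤ 4 * M ^ 3 * ∑ x ∈ C, ‖I.df f x‖ ^ 2 := by
  classical
  have hC' : ∀ j, ∀ x ∈ C, I.t j x ∈ C := by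
    intro j x hx
    by_cases h : I.t j x = x
    · rw [h]; exact hx
    · exact hC x hx _ (I.adj j x h)
  rcases C.eq_empty_or_nonempty with rfl | ⟨x0, hx0⟩
  · simp
  set E : ℝ := ∑ x ∈ C, I.en f x with hE
  have hE0 : 0 ≤ E := Finset.sum_nonneg fun x _ => en_nonneg I f x
  have h4 : ∀ x ∈ C, ‖f x - f x0‖ ^ 2 ≤ M ^ 2 * E := by
    intro x hx
    obtain ⟨q⟩ := hr x hx x0 hx0
    have h1 := walk_le I hC f q.bypass hx
    have hp := SimpleGraph.Walk.bypass_isPath q
    have h2 : q.bypass.length ≤ M := by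
      have h3 : q.bypass.support.toFinset ⊆ C := by
        intro z hz
        rw [List.mem_toFinset] at hz
        have : ∀ (a b : P) (w : Gr.Walk a b), a ∈ C → ∀ z ∈ w.support, z ∈ C := by
          intro a b w
          induction w with
          | nil =>
            intro ha z hz
            rw [SimpleGraph.Walk.support_nil, List.mem_singleton] at hz
            rw [hz]; exact ha
          | cons h w ih =>
            intro ha z hz
            rw [SimpleGraph.Walk.support_cons, List.mem_cons] at hz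
            rcases hz with rfl | hz
            · exact ha
            · exact ih (hC _ ha _ h) z hz
        exact this _ _ _ hx z hz
      have h4 := Finset.card_le_card h3
      rw [List.toFinset_card_of_nodup hp.support_nodup, SimpleGraph.Walk.length_support] at h4
      omega
    have h5 : ‖f x - f x0‖ ≤ M * Real.sqrt E := by
      refine h1.trans ?_
      gcongr
    calc ‖f x - f x0‖ ^ 2 ≤ (M * Real.sqrt E) ^ 2 := by gcongr
      _ = M ^ 2 * E := by rw [mul_pow, Real.sq_sqrt hE0]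
  have h5 : ∑ x ∈ C, ‖f x - f x0‖ ^ 2 ≤ M ^ 3 * E := by
    calc ∑ x ∈ C, ‖f x - f x0‖ ^ 2 ≤ ∑ x ∈ C, M ^ 2 * E := Finset.sum_le_sum h4
      _ = C.card * (M ^ 2 * E) := by rw [Finset.sum_const, nsmul_eq_mul]
      _ ≤ M * (M ^ 2 * E) := by
          have : (C.card : ℝ) ≤ M := by exact_mod_cast hM
          gcongr
      _ = M ^ 3 * E := by ring
  have h6 : ∑ x ∈ C, (starRingEnd ℂ (I.df f x)) * (f x - f x0) = (E : ℂ) / 2 := by
    have : ∑ x ∈ C, (starRingEnd ℂ (I.df f x)) * (f x - f x0)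
        = ∑ x ∈ C, (starRingEnd ℂ (I.df f x)) * f x
          - (starRingEnd ℂ (∑ x ∈ C, I.df f x)) * f x0 := by
      rw [map_sum, Finset.sum_mul, ← Finset.sum_sub_distrib]
      apply Finset.sum_congr rfl
      intro x _
      ring
    rw [this, sum_df I hC', sum_en I hC']
    simp [hE]
  have h7 : E / 2 ≤ ∑ x ∈ C, ‖I.df f x‖ * ‖f x - f x0‖ := by
    have h8 := congrArg norm h6
    rw [norm_div, Complex.norm_real, Real.norm_of_nonneg hE0] at h8
    have h9 : ‖(2 : ℂ)‖ = 2 := by simp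
    rw [h9] at h8
    rw [← h8]
    refine (norm_sum_le _ _).trans (le_of_eq ?_)
    apply Finset.sum_congr rfl
    intro x _
    rw [norm_mul, RCLike.norm_conj]
  have h8 : (∑ x ∈ C, ‖I.df f x‖ * ‖f x - f x0‖) ^ 2
      ≤ (∑ x ∈ C, ‖I.df f x‖ ^ 2) * ∑ x ∈ C, ‖f x - f x0‖ ^ 2 :=
    Finset.sum_mul_sq_le_sq_mul_sq _ _ _
  set N : ℝ := ∑ x ∈ C, ‖I.df f x‖ ^ 2 with hN
  have hN0 : 0 ≤ N := Finset.sum_nonneg fun x _ => by positivity
  have h9 : (E / 2) ^ 2 ≤ N * (M ^ 3 * E) := by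
    calc (E / 2) ^ 2 ≤ (∑ x ∈ C, ‖I.df f x‖ * ‖f x - f x0‖) ^ 2 := by gcongr
      _ ≤ _ := h8
      _ ≤ N * (M ^ 3 * E) := by gcongr
  rcases hE0.eq_or_lt with h0 | h0
  · rw [← h0]; positivity
  · have h10 : E * E ≤ (4 * M ^ 3 * N) * E := by nlinarith
    exact le_of_mul_le_mul_right h10 h0

/-- The operator inequality for graphs with components of bounded size. -/
lemma op_gap {M : ℕ} (hM : 1 ≤ M)
    (hfin : ∀ x, {y | Gr.Reachable x y}.Finite ∧ {y | Gr.Reachable x y}.ncard ≤ M) :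
    0 ≤ I.L * I.L - (((1 / (2 * M ^ 3) : ℝ)) : ℂ) • I.L := by
  classical
  set c : ℝ := 1 / (2 * M ^ 3) with hc
  have hM' : (1 : ℝ) ≤ M := by exact_mod_cast hM
  have hc0 : 0 < c := by positivity
  have hsa : IsSelfAdjoint (I.L * I.L - (c : ℂ) • I.L) := by
    rw [IsSelfAdjoint, star_sub, star_mul, star_smul, I.star_L]
    simp
  rw [ContinuousLinearMap.nonneg_iff_isPositive, ContinuousLinearMap.isPositive_def']
  refine ⟨hsa, fun v => ?_⟩
  have hadj : ∀ v w : L2 P, inner ℂ (I.L v) w = inner ℂ v (I.L w) := by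
    intro v w
    conv_lhs => rw [← I.star_L]
    rw [ContinuousLinearMap.star_eq_adjoint, ContinuousLinearMap.adjoint_inner_left]
  have happ : ∀ x, (I.L v) x = I.df v x := fun x => I.apply v x
  have e1 : inner ℂ ((I.L * I.L - (c : ℂ) • I.L) v) v
      = inner ℂ (I.L v) (I.L v) - c * inner ℂ (I.L v) v := by
    rw [sub_apply, inner_sub_left]
    have a1 : inner ℂ ((I.L * I.L) v) v = inner ℂ (I.L v) (I.L v) := by
      rw [mul_ap, hadj]
    have a2 : inner ℂ (((c : ℂ) • I.L) v) v = c * inner ℂ (I.L v) v := by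
      rw [show ((c : ℂ) • I.L) v = (c : ℂ) • I.L v from rfl, inner_smul_left, Complex.conj_ofReal]
    rw [a1, a2]
  have e2 : HasSum (fun x => (starRingEnd ℂ (I.df v x)) * I.df v x
      - c * ((starRingEnd ℂ (I.df v x)) * v x))
      (inner ℂ ((I.L * I.L - (c : ℂ) • I.L) v) v) := by
    rw [e1, inner_re_eq, inner_re_eq]
    have b1 := (inner_summable (I.L v) (I.L v)).hasSum
    have b2 := ((inner_summable (I.L v) v).hasSum).mul_left (c : ℂ)
    have := b1.sub b2
    simpa only [happ] using this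
  have e3 := Complex.hasSum_re e2
  have e4 := e3.tsum_fiberwise (fun x => Gr.connectedComponentMk x)
  refine e4.nonneg fun C => ?_
  induction C using SimpleGraph.ConnectedComponent.ind with
  | _ x0 =>
  have hset : ((fun x => Gr.connectedComponentMk x) ⁻¹' {Gr.connectedComponentMk x0})
      = {y | Gr.Reachable x0 y} := by
    ext y
    simp only [Set.mem_preimage, Set.mem_singleton_iff, SimpleGraph.ConnectedComponent.eq,
      Set.mem_ofPred_eq]
    exact ⟨SimpleGraph.Reachable.symm, SimpleGraph.Reachable.symm⟩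
  rw [hset]
  set S : Finset P := (hfin x0).1.toFinset with hS
  have hSm : ∀ y, y ∈ S ↔ Gr.Reachable x0 y := by
    intro y
    rw [hS, Set.Finite.mem_toFinset]
    exact Iff.rfl
  have hSc : S.card ≤ M := by
    rw [hS, ← Set.ncard_eq_toFinset_card _ (hfin x0).1]
    exact (hfin x0).2
  have hset2 : {y | Gr.Reachable x0 y} = (S : Set P) := by
    ext y
    rw [Finset.mem_coe, hSm]
    exact Iff.rfl
  rw [hset2, Finset.tsum_subtype' S (fun x => ((starRingEnd ℂ (I.df v x)) * I.df v x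
      - c * ((starRingEnd ℂ (I.df v x)) * v x)).re), ← Complex.re_sum, Finset.sum_sub_distrib,
    ← Finset.mul_sum]
  have hC : ∀ x ∈ S, ∀ y, Gr.Adj x y → y ∈ S := fun x hx y hxy =>
    (hSm y).mpr (((hSm x).mp hx).trans hxy.reachable)
  have hC' : ∀ j, ∀ x ∈ S, I.t j x ∈ S := by
    intro j x hx
    by_cases h : I.t j x = x
    · rw [h]; exact hx
    · exact hC x hx _ (I.adj j x h)
  rw [sum_en I hC']
  have h1 := local_gap I hC (fun x hx y hy => ((hSm x).mp hx).symm.trans ((hSm y).mp hy)) hSc v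
  have h2 : ∑ x ∈ S, (starRingEnd ℂ (I.df v x)) * I.df v x
      = ((∑ x ∈ S, ‖I.df v x‖ ^ 2 : ℝ) : ℂ) := by
    push_cast
    apply Finset.sum_congr rfl
    intro x _
    rw [Complex.conj_mul']
  rw [h2]
  have h3 : (((∑ x ∈ S, ‖I.df v x‖ ^ 2 : ℝ) : ℂ) - c * (((∑ x ∈ S, I.en v x : ℝ) : ℂ) / 2)).re
      = ∑ x ∈ S, ‖I.df v x‖ ^ 2 - c * ((∑ x ∈ S, I.en v x) / 2) := by
    have : (((∑ x ∈ S, ‖I.df v x‖ ^ 2 : ℝ) : ℂ) - c * (((∑ x ∈ S, I.en v x : ℝ) : ℂ) / 2))
        = ((∑ x ∈ S, ‖I.df v x‖ ^ 2 - c * ((∑ x ∈ S, I.en v x) / 2) : ℝ) : ℂ) := by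
      push_cast
      ring
    rw [this, Complex.ofReal_re]
  rw [h3, sub_nonneg]
  calc c * ((∑ x ∈ S, I.en v x) / 2) ≤ c * ((4 * M ^ 3 * ∑ x ∈ S, ‖I.df v x‖ ^ 2) / 2) := by gcongr
    _ = ∑ x ∈ S, ‖I.df v x‖ ^ 2 := by
        rw [hc]
        field_simp
        norm_num

/-- Sum of squares certificate (a single square) for graphs with components of bounded size. -/
theorem sos_bdd {M : ℕ} (hM : 1 ≤ M)
    (hfin : ∀ x, {y | Gr.Reachable x y}.Finite ∧ {y | Gr.Reachable x y}.ncard ≤ M) :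
    ∃ ξ : alg Gr, I.lap * I.lap - (((1 / (2 * M ^ 3) : ℝ)) : ℂ) • I.lap = star ξ * ξ := by
  classical
  have h0 := op_gap I hM hfin
  set a : L2 P →L[ℂ] L2 P := I.L * I.L - (((1 / (2 * M ^ 3) : ℝ)) : ℂ) • I.L with ha
  obtain ⟨s, hsa, hs, hsc⟩ := sqrt_op a h0
  -- commutation with component projections
  have hcomm : ∀ x0, Commute s (MM {y | Gr.Reachable x0 y}) := by
    intro x0
    apply hsc
    have h1 : Commute I.L (MM {y | Gr.Reachable x0 y}) := by
      letI := I.fin
      rw [Invs.L]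
      apply Commute.sum_left
      intro j _
      apply Commute.sub_left (Commute.one_left _)
      show UU (I.t j) * MM _ = MM _ * UU (I.t j)
      rw [UU_MM]
      congr 2
      ext y
      constructor
      · rintro ⟨z, hz, rfl⟩
        have hz' : Gr.Reachable x0 z := hz
        show Gr.Reachable x0 (I.t j z)
        by_cases h : I.t j z = z
        · rw [h]; exact hz'
        · exact hz'.trans (I.adj j z h).reachable
      · intro hy
        have hy' : Gr.Reachable x0 y := hy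
        refine ⟨I.t j y, ?_, I.inv j y⟩
        show Gr.Reachable x0 (I.t j y)
        by_cases h : I.t j y = y
        · rw [h]; exact hy'
        · exact hy'.trans (I.adj j y h).reachable
    rw [ha]
    exact (h1.mul_left h1).sub_left (h1.smul_left _)
  have hprop : PropLE Gr s M := by
    intro x y hxy
    have hnr : ¬ Gr.Reachable x y := by
      intro hr
      obtain ⟨q⟩ := hr
      have hp := SimpleGraph.Walk.bypass_isPath q
      have h3 : q.bypass.support.toFinset ⊆ (hfin x).1.toFinset := by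
        intro z hz
        rw [List.mem_toFinset] at hz
        rw [Set.Finite.mem_toFinset]
        exact ⟨q.bypass.takeUntil z hz⟩
      have h4 := Finset.card_le_card h3
      rw [List.toFinset_card_of_nodup hp.support_nodup, SimpleGraph.Walk.length_support,
        ← Set.ncard_eq_toFinset_card _ (hfin x).1] at h4
      have h5 := hxy.trans (SimpleGraph.edist_le q.bypass)
      have h6 : M ≤ q.bypass.length := by exact_mod_cast h5
      have := (hfin x).2
      omega
    have h1 : s (dl x) = MM {z | Gr.Reachable x z} (s (dl x)) := by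
      have h2 : (s * MM {z | Gr.Reachable x z}) (dl x)
          = (MM {z | Gr.Reachable x z} * s) (dl x) := by rw [(hcomm x).eq]
      rw [mul_ap, mul_ap, MM_dl_mem (show x ∈ {z | Gr.Reachable x z} from
        SimpleGraph.Reachable.refl x)] at h2
      exact h2
    rw [h1]
    conv_lhs => rw [← star_MM]
    rw [ContinuousLinearMap.star_eq_adjoint, ContinuousLinearMap.adjoint_inner_right,
      MM_dl_notMem (show y ∉ {z | Gr.Reachable x z} from hnr), inner_zero_left]
  refine ⟨⟨s, M, hprop⟩, ?_⟩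
  apply Subtype.ext
  show a = star s * s
  rw [hsa, hs]

end loc

end Pool.Agent.KS6_80.GT
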