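import Pool.Agent.KS6_80.GT.Alg

set_option autoImplicit false

/-!
# A sparse perturbation of a graph keeps the spectral gap
-/

namespace Pool.Agent.KS6_80.GT

open Pool.Agent.H494R3.GT
open scoped Pointwise CStarAlgebra ComplexOrder

variable {P : Type}

/-- a uniform spectral gap in all unital star representations -/
def Gap (Gr : SimpleGraph P) (D : alg Gr) : Prop :=
  ∃ c : ℝ, 0 < c ∧ ∀ (B : Type) [CStarAlgebra B] (π : alg Gr →⋆ₐ[ℂ] B),
    spectrum ℂ (π D) ⊆ {0} ∪ {r : ℂ | ∃ t : ℝ, c ≤ t ∧ r = t}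

section
variable {B : Type*} [CStarAlgebra B] [PartialOrder B] [StarOrderedRing B]

lemma invol_nonneg' {s : B} (h1 : s * s = 1) (h2 : star s = s) : 0 ≤ 1 - s := by
  have h3 : 0 ≤ star (1 - s) * (1 - s) := star_mul_self_nonneg _
  have h4 : star (1 - s) * (1 - s) = (2 : ℝ) • (1 - s) := by
    rw [star_sub, star_one, h2]
    have : (1 - s) * (1 - s) = 1 - s - s + s * s := by noncomm_ring
    rw [this, h1]
    module
  rw [h4] at h3
  have h5 : 1 - s = (1 / 2 : ℝ) • ((2 : ℝ) • (1 - s)) := by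
    rw [smul_smul]; norm_num
  rw [h5]
  exact smul_nonneg (by norm_num) h3

/-- a projection killed by a sum of `1 - s_j` is absorbed by each `s_j` -/
lemma absorb_each {J : Type*} [Fintype J] {s : J → B} (h1 : ∀ j, s j * s j = 1)
    (h2 : ∀ j, star (s j) = s j) {p : B} (hps : star p = p) (h : (∑ j, (1 - s j)) * p = 0)
    (j : J) : s j * p = p := by
  have e1 : ∀ j, star ((1 - s j) * p) * ((1 - s j) * p) = (2 : ℝ) • (p * ((1 - s j) * p)) := by
    intro j
    have e : (1 - s j) * (1 - s j) = (2 : ℝ) • (1 - s j) := by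
      have : (1 - s j) * (1 - s j) = 1 - s j - s j + s j * s j := by noncomm_ring
      rw [this, h1]
      module
    rw [star_mul, hps, star_sub, star_one, h2, mul_assoc, ← mul_assoc (1 - s j), e,
      smul_mul_assoc, mul_smul_comm]
  have e2 : ∑ j, star ((1 - s j) * p) * ((1 - s j) * p) = 0 := by
    simp only [e1]
    rw [← Finset.smul_sum, ← Finset.mul_sum, ← Finset.sum_mul, h, mul_zero, smul_zero]
  have e3 := (Finset.sum_eq_zero_iff_of_nonneg
    (fun i _ => star_mul_self_nonneg ((1 - s i) * p))).mp e2 j (Finset.mem_univ j)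
  have e4 : (1 - s j) * p = 0 := CStarRing.star_mul_self_eq_zero_iff _ |>.mp e3
  rw [sub_mul, one_mul, sub_eq_zero] at e4
  exact e4.symm

/-- From the shape of the spectrum to operator inequalities. -/
lemma spec_conv {a : B} {c : ℝ} (hc : 0 < c) (hs : star a = a)
    (h : spectrum ℂ a ⊆ {0} ∪ {r : ℂ | ∃ t : ℝ, c ≤ t ∧ r = t}) :
    0 ≤ a ∧ (c : ℂ) • a ≤ a * a := by
  have hsa : IsSelfAdjoint a := hs
  have hr : ∀ r ∈ spectrum ℝ a, r = 0 ∨ c ≤ r := by
    intro r hr
    have hr' : (r : ℂ) ∈ spectrum ℂ a := (spectrum.algebraMap_mem_iff ℂ).mpr hr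
    rcases h hr' with h1 | ⟨t, ht, h1⟩
    · left
      have : (r : ℂ) = 0 := h1
      exact_mod_cast this
    · right
      have : r = t := by exact_mod_cast h1
      rw [this]; exact ht
  constructor
  · rw [← cfc_id' ℝ a]
    apply cfc_nonneg
    intro r h3
    rcases hr r h3 with h4 | h4
    · rw [h4]
    · exact hc.le.trans h4
  · rw [← sub_nonneg]
    have h2 : a * a - (c : ℂ) • a = cfc (fun x : ℝ => x * x - c * x) a := by
      rw [cfc_sub (fun x : ℝ => x * x) (fun x : ℝ => c * x) a (by fun_prop) (by fun_prop),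
        cfc_mul (fun x : ℝ => x) (fun x : ℝ => x) a (by fun_prop) (by fun_prop),
        cfc_const_mul c (fun x : ℝ => x) a (by fun_prop), cfc_id' ℝ a]
      rw [Complex.coe_smul]
    rw [h2]
    apply cfc_nonneg
    intro r h3
    rcases hr r h3 with h4 | h4
    · rw [h4]; simp
    · nlinarith

end

/-- The main stability theorem. -/
theorem gap_perturb {Gr Gr' : SimpleGraph P} (hle : Gr ≤ Gr') (I : Invs Gr) (D : alg Gr)
    (hD : (D : L2 P →L[ℂ] L2 P) = letI := I.fin; ∑ j, (1 - UU (I.t j))) (hgap : Gap Gr D)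
    (E : Fin 2 → Equiv.Perm P) (hE : ∀ e x, E e (E e x) = x)
    (hE1 : ∀ e x, Gr'.edist x (E e x) ≤ 1)
    (D' : alg Gr')
    (hD' : (D' : L2 P →L[ℂ] L2 P) = (D : L2 P →L[ℂ] L2 P) + ∑ e, (1 - UU (E e)))
    (Y : Set P) (hY : ∀ e x, x ∉ Y → E e x = x)
    (bl : P → ℕ) (hbl : ∀ N, {x | bl x < N}.Finite) (hEb : ∀ e x, bl (E e x) = bl x)
    (hreach : ∀ e x, Gr.Reachable x (E e x))
    (hsep : ∀ K : ℕ, ∃ N : ℕ, ∃ g : ℕ → Equiv.Perm P,
      (∀ i < K, ∃ r : ℕ, ∀ x, Gr.edist x (g i x) ≤ r) ∧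
      ∀ x ∈ Y, ∀ y ∈ Y, N ≤ bl x → N ≤ bl y → ∀ i < K, ∀ j < K, g i x = g j y → i = j) :
    Gap Gr' D' := by
  classical
  letI hfin := I.fin
  obtain ⟨c, hc, hgap⟩ := hgap
  refine ⟨c, hc, ?_⟩
  intro B _ π
  let _ : PartialOrder B := CStarAlgebra.spectralOrder B
  have : StarOrderedRing B := CStarAlgebra.spectralOrderedRing B
  have hsub : alg Gr ≤ alg Gr' := alg_mono hle
  have h1 := hgap B (π.comp (StarSubalgebra.inclusion hsub))
  set a : B := π (StarSubalgebra.inclusion hsub D) with ha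
  have hE2 : ∀ τ : Equiv.Perm P, (∀ x, τ (τ x) = x) → τ * τ = 1 := by
    intro τ h
    ext x
    rw [Equiv.Perm.mul_apply, h]; rfl
  have hE3 : ∀ τ : Equiv.Perm P, (∀ x, τ (τ x) = x) → τ⁻¹ = τ := by
    intro τ h
    rw [inv_eq_iff_mul_eq_one]; exact hE2 τ h
  have hDs : star (D : L2 P →L[ℂ] L2 P) = D := by
    rw [hD, star_sum]
    apply Finset.sum_congr rfl
    intro j _
    rw [star_sub, star_one, star_UU, hE3 _ (I.inv j)]
  have has : star a = a := by
    rw [ha, ← map_star]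
    congr 1
    exact Subtype.ext hDs
  obtain ⟨ha0, hca⟩ := spec_conv hc has h1
  obtain ⟨p, hp, hps, hap, hcp⟩ := exists_proj hc ha0 hca
  have hMM : ∀ A, MM A ∈ alg Gr' := MM_mem Gr'
  -- the involutions
  have hmemI : ∀ j x, Gr.edist x (I.t j x) ≤ (1 : ℕ) := by
    intro j x
    by_cases h : I.t j x = x
    · rw [h, SimpleGraph.edist_self]; simp
    · have := SimpleGraph.edist_eq_one_iff_adj.mpr (I.adj j x h)
      rw [this]; simp
  have hmemI' : ∀ j, UU (I.t j) ∈ alg Gr' := fun j => hsub (UU_mem (hmemI j))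
  have hsq : ∀ (τ : Equiv.Perm P) (h : UU τ ∈ alg Gr'), (∀ x, τ (τ x) = x) →
      π ⟨UU τ, h⟩ * π ⟨UU τ, h⟩ = 1 ∧ star (π ⟨UU τ, h⟩) = π ⟨UU τ, h⟩ := by
    intro τ h h2
    constructor
    · rw [← map_mul, ← map_one π]
      congr 1
      apply Subtype.ext
      show UU τ * UU τ = 1
      rw [UU_mul, hE2 τ h2, UU_one]
    · rw [← map_star]
      congr 1
      apply Subtype.ext
      show star (UU τ) = UU τ
      rw [star_UU, hE3 τ h2]
  have hasum : a = ∑ j, (1 - π ⟨UU (I.t j), hmemI' j⟩) := by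
    have : (StarSubalgebra.inclusion hsub D : alg Gr')
        = ∑ j, (1 - ⟨UU (I.t j), hmemI' j⟩ : alg Gr') := by
      apply Subtype.ext
      rw [AddSubmonoidClass.coe_finsetSum]
      show (D : L2 P →L[ℂ] L2 P) = _
      rw [hD]
      rfl
    rw [ha, this, map_sum]
    apply Finset.sum_congr rfl
    intro j _
    rw [map_sub, map_one]
  have habsI : ∀ j, I.t j ∈ absorb (alg Gr') π p := by
    intro j
    refine ⟨hmemI' j, ?_⟩
    exact absorb_each (s := fun j => π ⟨UU (I.t j), hmemI' j⟩)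
      (fun j => (hsq _ (hmemI' j) (I.inv j)).1) (fun j => (hsq _ (hmemI' j) (I.inv j)).2) hps
      (by rw [← hasum]; exact hap) j
  have hbdd : ∀ (τ : Equiv.Perm P) (r : ℕ), (∀ x, Gr.edist x (τ x) ≤ r) →
      τ ∈ absorb (alg Gr') π p := by
    intro τ r h
    exact absorb_bdd (alg Gr') π p hMM I habsI τ (hsub (UU_mem h)) r h
  have hEmem : ∀ e, UU (E e) ∈ alg Gr' := fun e => UU_mem (R := 1) (by simpa using hE1 e)
  have habsE : ∀ e, E e ∈ absorb (alg Gr') π p := by
    intro e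
    refine sparse_absorb' (alg Gr') π p hMM hp hps (E e) (hEmem e) Y (hY e) bl (hEb e) ?_ ?_
    · intro N σ' h1 h2
      have h3 : ∀ x, ∃ r : ℕ, Gr.edist x (E e x) ≤ r := by
        intro x
        obtain ⟨q, hq⟩ := (hreach e x).exists_walk_length_eq_edist
        exact ⟨q.length, hq.ge⟩
      choose rr hrr using h3
      obtain ⟨r, hr⟩ : ∃ r, ∀ x, bl x < N → rr x ≤ r := by
        refine ⟨(hbl N).toFinset.sup rr, fun x hx => ?_⟩
        exact Finset.le_sup (f := rr) (by simpa using hx)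
      refine hbdd σ' r ?_
      intro x
      by_cases hx : bl x < N
      · rw [h1 x hx]
        exact (hrr x).trans (by exact_mod_cast hr x hx)
      · rw [h2 x (not_lt.mp hx), SimpleGraph.edist_self]
        simp
    · intro K
      obtain ⟨N, g, hg, h⟩ := hsep K
      refine ⟨N, g, fun i hi => ?_, h⟩
      obtain ⟨r, hr⟩ := hg i hi
      exact hbdd (g i) r hr
  have hD'e : π D' = a + ∑ e, (1 - π ⟨UU (E e), hEmem e⟩) := by
    have : D' = StarSubalgebra.inclusion hsub D + ∑ e, (1 - ⟨UU (E e), hEmem e⟩ : alg Gr') := by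
      apply Subtype.ext
      rw [hD']
      show _ = (D : L2 P →L[ℂ] L2 P) + _
      rw [AddSubmonoidClass.coe_finsetSum]
      rfl
    rw [this, map_add, map_sum, ha]
    congr 1
    apply Finset.sum_congr rfl
    intro j _
    rw [map_sub, map_one]
  rw [hD'e]
  have hb0 : ∀ e, 0 ≤ 1 - π ⟨UU (E e), hEmem e⟩ := fun e =>
    invol_nonneg' (hsq _ (hEmem e) (hE e)).1 (hsq _ (hEmem e) (hE e)).2
  have hbP : ∀ e, (1 - π ⟨UU (E e), hEmem e⟩) * p = 0 := by
    intro e
    obtain ⟨h1, h2⟩ := habsE e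
    rw [sub_mul, one_mul, sub_eq_zero]
    exact h2.symm
  have hfs := final_spec (a := a) (b := ∑ e, (1 - π ⟨UU (E e), hEmem e⟩)) (P := p)
    hc hp hps ha0 hap hcp (Finset.sum_nonneg fun e _ => hb0 e)
    (by rw [Finset.sum_mul]; exact Finset.sum_eq_zero fun e _ => hbP e)
  intro r hr
  rcases hfs r hr with h | h
  · left; exact h
  · right; exact h

end Pool.Agent.KS6_80.GT
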