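import Pool.Graph.R_seed8.H494R3.GT.Defs
import Pool.Agent.KS6_80.GT.Pert

set_option autoImplicit false

/-!
# Facts on box spaces
-/

namespace Pool.Agent.KS6_80.GT

open Pool.Agent.H494R3.GT
open scoped Pointwise

section general
variable {P : Type}

/-- A family of disjoint transpositions. -/
lemma exists_swap {ι : Type} (a b : ι → P) (ha : Function.Injective a)
    (hb : Function.Injective b) (hab : ∀ s s', a s = b s' → s = s') :
    ∃ g : Equiv.Perm P, (∀ s, g (a s) = b s) ∧
      ∀ x, g x = x ∨ ∃ s, (x = a s ∧ g x = b s) ∨ (x = b s ∧ g x = a s) := by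
  classical
  let f : P → P := fun x => if h : ∃ s, x = a s then b h.choose else
    if h : ∃ s, x = b s then a h.choose else x
  have f1 : ∀ s, f (a s) = b s := by
    intro s
    have h : ∃ s', a s = a s' := ⟨s, rfl⟩
    show (if h : ∃ s', a s = a s' then b h.choose else _) = b s
    rw [dif_pos h, ← ha h.choose_spec]
  have f2 : ∀ s, f (b s) = a s := by
    intro s
    by_cases h : ∃ s', b s = a s'
    · obtain ⟨s', hs'⟩ := h
      have := hab s' s hs'.symm
      subst this
      rw [hs', f1, hs']
    · have h2 : ∃ s', b s = b s' := ⟨s, rfl⟩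
      show (if h : ∃ s', b s = a s' then b h.choose else
        if h : ∃ s', b s = b s' then a h.choose else b s) = a s
      rw [dif_neg h, dif_pos h2, ← hb h2.choose_spec]
  have f3 : ∀ x, f x = x ∨ ∃ s, (x = a s ∧ f x = b s) ∨ (x = b s ∧ f x = a s) := by
    intro x
    by_cases h : ∃ s, x = a s
    · obtain ⟨s, rfl⟩ := h
      exact Or.inr ⟨s, Or.inl ⟨rfl, f1 s⟩⟩
    · by_cases h2 : ∃ s, x = b s
      · obtain ⟨s, rfl⟩ := h2
        exact Or.inr ⟨s, Or.inr ⟨rfl, f2 s⟩⟩
      · left
        show (if h : ∃ s', x = a s' then b h.choose else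
          if h : ∃ s', x = b s' then a h.choose else x) = x
        rw [dif_neg h, dif_neg h2]
  have f4 : ∀ x, f (f x) = x := by
    intro x
    rcases f3 x with h | ⟨s, ⟨h, h'⟩ | ⟨h, h'⟩⟩
    · rw [h, h]
    · rw [h', f2, h]
    · rw [h', f1, h]
  exact ⟨⟨f, f, f4, f4⟩, f1, f3⟩

/-- Greedy choice of pairwise far points. -/
lemma exists_far {V : Type} (S : Finset V) (cl : V → V → Prop) (hcl : ∀ x y, cl x y → cl y x)
    (B : ℕ) (hB : ∀ x, {y | cl x y}.Finite ∧ {y | cl x y}.ncard ≤ B) (n : ℕ)
    (hn : n * B < S.card) :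
    ∃ y : ℕ → V, (∀ k, y k ∈ S) ∧ ∀ k ≤ n, ∀ k' ≤ n, k ≠ k' → ¬ cl (y k) (y k') := by
  classical
  induction n with
  | zero =>
    rw [zero_mul, Finset.card_pos] at hn
    obtain ⟨z, hz⟩ := hn
    exact ⟨fun _ => z, fun _ => hz, fun k hk k' hk' h => absurd (by omega : k = k') h⟩
  | succ n ih =>
    obtain ⟨y, hy, hyy⟩ := ih (lt_of_le_of_lt (Nat.mul_le_mul_right B (Nat.le_succ n)) hn)
    set U : Finset V := (Finset.range (n + 1)).biUnion fun k => (hB (y k)).1.toFinset with hU
    have hUc : U.card ≤ (n + 1) * B := by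
      refine (Finset.card_biUnion_le_card_mul _ _ B ?_).trans ?_
      · intro k _
        rw [← Set.ncard_eq_toFinset_card _ (hB (y k)).1]
        exact (hB (y k)).2
      · rw [Finset.card_range]
    obtain ⟨z, hz, hzU⟩ : ∃ z ∈ S, z ∉ U := by
      by_contra hcon
      push Not at hcon
      have := Finset.card_le_card (show S ⊆ U from hcon)
      omega
    have hz' : ∀ k ≤ n, ¬ cl (y k) z := by
      intro k hk h
      apply hzU
      rw [hU, Finset.mem_biUnion]
      exact ⟨k, Finset.mem_range.mpr (by omega), by simpa using h⟩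
    refine ⟨Function.update y (n + 1) z, ?_, ?_⟩
    · intro k
      by_cases h : k = n + 1
      · subst h; rw [Function.update_self]; exact hz
      · rw [Function.update_of_ne h]; exact hy k
    · intro k hk k' hk' hne
      by_cases h : k = n + 1
      · subst h
        rw [Function.update_self, Function.update_of_ne hne.symm]
        exact fun h2 => hz' k' (by omega) (hcl _ _ h2)
      · by_cases h' : k' = n + 1
        · subst h'
          rw [Function.update_self, Function.update_of_ne hne]
          exact hz' k (by omega)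
        · rw [Function.update_of_ne h, Function.update_of_ne h']
          exact hyy k (by omega) k' (by omega) hne

/-- balls in a graph of bounded degree are finite of bounded size -/
lemma ball_bound (Gr : SimpleGraph P) (d : ℕ)
    (hd : ∀ x, (Gr.neighborSet x).Finite ∧ (Gr.neighborSet x).ncard ≤ d) (r : ℕ) (x : P) :
    {y | Gr.edist x y ≤ r}.Finite ∧ {y | Gr.edist x y ≤ r}.ncard ≤ (d + 1) ^ r := by
  classical
  induction r with
  | zero =>
    have : {y | Gr.edist x y ≤ (0 : ℕ)} = {x} := by
      ext y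
      rw [Set.mem_ofPred_eq, Nat.cast_zero, nonpos_iff_eq_zero, SimpleGraph.edist_eq_zero_iff,
        Set.mem_singleton_iff, eq_comm]
    rw [this]
    simp
  | succ r ih =>
    have hsub : {y | Gr.edist x y ≤ (r + 1 : ℕ)} ⊆
        ((ih.1.toFinset.biUnion fun z => insert z (hd z).1.toFinset : Finset P) : Set P) := by
      intro y hy
      have hy' : Gr.edist x y ≤ (r + 1 : ℕ) := hy
      rw [Finset.mem_coe, Finset.mem_biUnion]
      obtain ⟨q, hq⟩ := SimpleGraph.exists_walk_of_edist_ne_top
        (hy'.trans_lt (ENat.natCast_lt_top _)).ne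
      rw [← hq] at hy'
      have hq' : q.length ≤ r + 1 := by exact_mod_cast hy'
      rcases Nat.lt_or_ge q.length (r + 1) with h | h
      · refine ⟨y, ?_, Finset.mem_insert_self _ _⟩
        simp only [Set.Finite.mem_toFinset, Set.mem_ofPred_eq]
        exact (SimpleGraph.edist_le q).trans (by exact_mod_cast (by omega : q.length ≤ r))
      · have hne : ¬ q.Nil := by
          intro h2
          rw [← SimpleGraph.Walk.length_eq_zero_iff] at h2
          omega
        refine ⟨q.penultimate, ?_, ?_⟩
        · simp only [Set.Finite.mem_toFinset, Set.mem_ofPred_eq]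
          refine (SimpleGraph.edist_le q.dropLast).trans ?_
          have : q.dropLast.length + 1 = q.length := SimpleGraph.Walk.length_dropLast_add_one hne
          exact_mod_cast (by omega : q.dropLast.length ≤ r)
        · rw [Finset.mem_insert]
          right
          simp only [Set.Finite.mem_toFinset, SimpleGraph.mem_neighborSet]
          exact q.adj_penultimate hne
    refine ⟨(Finset.finite_toSet _).subset hsub, ?_⟩
    refine (Set.ncard_le_ncard hsub (Finset.finite_toSet _)).trans ?_
    rw [Set.ncard_coe_finset]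
    refine (Finset.card_biUnion_le_card_mul _ _ (d + 1) ?_).trans ?_
    · intro z _
      refine (Finset.card_insert_le _ _).trans ?_
      rw [← Set.ncard_eq_toFinset_card _ (hd z).1]
      exact Nat.add_le_add_right (hd z).2 1
    · rw [pow_succ]
      apply Nat.mul_le_mul_right
      rw [← Set.ncard_eq_toFinset_card _ ih.1]
      exact ih.2

/-- Near a point of a large component there are many points. -/
lemma exists_near (Gr : SimpleGraph P) (x : P) (K : ℕ) (S : Finset P)
    (hS : ∀ y ∈ S, Gr.Reachable x y) (hK : K ≤ S.card) :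
    ∃ t : ℕ → P, (∀ i < K, Gr.edist x (t i) ≤ K) ∧ ∀ i < K, ∀ j < K, t i = t j → i = j := by
  classical
  by_cases h : ∃ y ∈ S, (K : ℕ∞) ≤ Gr.edist x y
  · obtain ⟨y, hy, hKy⟩ := h
    obtain ⟨q⟩ := hS y hy
    have hq := SimpleGraph.Walk.bypass_isPath q
    have hlen : K ≤ q.bypass.length := by
      exact_mod_cast hKy.trans (SimpleGraph.edist_le q.bypass)
    refine ⟨fun i => q.bypass.getVert i, ?_, ?_⟩
    · intro i hi
      refine (SimpleGraph.edist_le (q.bypass.take i)).trans ?_
      rw [SimpleGraph.Walk.take_length]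
      exact_mod_cast (min_le_left _ _).trans hi.le
    · intro i hi j hj hij
      exact hq.getVert_injOn (by simp; omega) (by simp; omega) hij
  · push Not at h
    obtain ⟨S', hS', hc⟩ := Finset.exists_subset_card_eq hK
    have e := S'.equivFin.symm
    rw [hc] at e
    refine ⟨fun i => if h : i < K then (e ⟨i, h⟩ : P) else x, ?_, ?_⟩
    · intro i hi
      simp only [dif_pos hi]
      exact (h _ (hS' (e ⟨i, hi⟩).2)).le
    · intro i hi j hj hij
      simp only [dif_pos hi, dif_pos hj] at hij
      have := e.injective (Subtype.ext hij)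
      exact congrArg Fin.val this

end general

section box
variable (X : BoxSpace)

lemma pt_countable : ∃ e : X.Pt → ℕ, Function.Injective e := by
  have : ∀ i, Countable (X.V i) := fun i => by
    have := X.finite i
    infer_instance
  have : Countable X.Pt := inferInstance
  exact this.exists_injective_nat

lemma graph_adj {i j : ℕ} {a : X.V i} {b : X.V j} :
    X.graph.Adj ⟨i, a⟩ ⟨j, b⟩ ↔ ∃ h : j = i, (X.G i).Adj a (h ▸ b) := by
  constructor
  · rintro ⟨k, a', b', h1, h2, h3⟩
    obtain ⟨rfl, h4⟩ := Sigma.mk.inj h1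
    obtain ⟨rfl, h5⟩ := Sigma.mk.inj h2
    have := eq_of_heq h4
    have := eq_of_heq h5
    subst_vars
    exact ⟨rfl, h3⟩
  · rintro ⟨rfl, h⟩
    exact ⟨_, a, b, rfl, rfl, h⟩

lemma graph_adj' {i : ℕ} {a b : X.V i} : X.graph.Adj ⟨i, a⟩ ⟨i, b⟩ ↔ (X.G i).Adj a b := by
  rw [graph_adj]
  exact ⟨fun ⟨_, h⟩ => h, fun h => ⟨rfl, h⟩⟩

lemma adj_fst {p q : X.Pt} (h : X.graph.Adj p q) : p.1 = q.1 := by
  obtain ⟨i, a, b, rfl, rfl, _⟩ := h
  rfl

lemma reach_fst {p q : X.Pt} (h : X.graph.Reachable p q) : p.1 = q.1 := by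
  obtain ⟨w⟩ := h
  induction w with
  | nil => rfl
  | cons h _ ih => exact (adj_fst X h).trans ih

lemma nbr_bound (x : X.Pt) : (X.graph.neighborSet x).Finite ∧
    (X.graph.neighborSet x).ncard ≤ X.deg := by
  obtain ⟨i, a⟩ := x
  have := X.finite i
  have h : X.graph.neighborSet ⟨i, a⟩ = (fun b : X.V i => (⟨i, b⟩ : X.Pt)) '' {b | (X.G i).Adj a b} := by
    ext ⟨j, b⟩
    rw [SimpleGraph.mem_neighborSet, graph_adj]
    constructor
    · rintro ⟨rfl, h⟩
      exact ⟨b, h, rfl⟩
    · rintro ⟨b', h1, h2⟩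
      obtain ⟨rfl, h4⟩ := Sigma.mk.inj h2
      have := eq_of_heq h4
      subst this
      exact ⟨rfl, h1⟩
  rw [h]
  refine ⟨(Set.toFinite _).image _, ?_⟩
  refine (Set.ncard_image_le (Set.toFinite _)).trans (X.deg_le i a)

lemma fst_finite (N : ℕ) : {x : X.Pt | x.1 < N}.Finite := by
  have : {x : X.Pt | x.1 < N} ⊆ ⋃ i ∈ Finset.range N, Set.range (fun v : X.V i => (⟨i, v⟩ : X.Pt)) := by
    rintro ⟨i, v⟩ h
    simp only [Set.mem_iUnion, Finset.mem_range]
    exact ⟨i, h, v, rfl⟩
  refine Set.Finite.subset ?_ this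
  apply Set.Finite.biUnion (Finset.finite_toSet _)
  intro i _
  have := X.finite i
  exact Set.finite_range _

lemma reach_of {i : ℕ} {a b : X.V i} (h : (X.G i).Reachable a b) :
    X.graph.Reachable ⟨i, a⟩ ⟨i, b⟩ := by
  obtain ⟨w⟩ := h
  induction w with
  | nil => exact SimpleGraph.Reachable.refl _
  | cons h _ ih => exact ((graph_adj' X).mpr h).reachable.trans ih

lemma of_reach {i : ℕ} {a b : X.V i} (h : X.graph.Reachable ⟨i, a⟩ ⟨i, b⟩) :
    (X.G i).Reachable a b := by
  have key : ∀ (p q : X.Pt) (w : X.graph.Walk p q) (a b : X.V i), p = ⟨i, a⟩ → q = ⟨i, b⟩ →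
      (X.G i).Reachable a b := by
    intro p q w
    induction w with
    | nil =>
      intro a b h1 h2
      have := eq_of_heq (Sigma.mk.inj (h1.symm.trans h2)).2
      rw [this]
    | @cons u v w h _ ih =>
      intro a b h1 h2
      subst h1
      obtain ⟨j, c⟩ := v
      obtain ⟨h3, h4⟩ := (graph_adj X).mp h
      subst h3
      exact h4.reachable.trans (ih c b rfl h2)
  obtain ⟨w⟩ := h
  exact key _ _ w a b rfl rfl

end box

end Pool.Agent.KS6_80.GT
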