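import Pool.Agent.KS6_80.GT.Path

set_option autoImplicit false

/-!
# Adding the edges of a sparse path
-/

namespace Pool.Agent.KS6_80.GT

open Pool.Agent.H494R3.GT
open scoped Pointwise

/-- The box space with the same vertex sets as `X` whose graphs are `H i`. -/
@[reducible] def withGraph (X : BoxSpace) (H : ∀ i, SimpleGraph (X.V i)) (d : ℕ)
    (hd : ∀ i (a : X.V i), {b | (H i).Adj a b}.ncard ≤ d) : BoxSpace where
  V := X.V
  finite := X.finite
  G := H
  deg := d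
  deg_le := hd
  card_tendsto := X.card_tendsto

section lap
variable {P : Type} {Gr : SimpleGraph P} (I : Invs Gr)

lemma Invs.edist_le (j : I.J) (x : P) : Gr.edist x (I.t j x) ≤ 1 := by
  by_cases h : I.t j x = x
  · rw [h, SimpleGraph.edist_self]; simp
  · exact (SimpleGraph.edist_eq_one_iff_adj.mpr (I.adj j x h)).le

/-- the sum of the operators `1 - U_j` -/
noncomputable def Invs.L : L2 P →L[ℂ] L2 P := letI := I.fin; ∑ j, (1 - UU (I.t j))

lemma PropLE_one' : PropLE Gr (1 : L2 P →L[ℂ] L2 P) 2 := by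
  have := (PropLE.one_smul (Gr := Gr) 1).mono (show 1 ≤ 2 by norm_num)
  rwa [_root_.one_smul] at this

lemma Invs.prop : PropLE Gr I.L 2 := by
  letI := I.fin
  exact PropLE.sum _ fun j => PropLE_one'.sub
    (PropLE_UU' (R := 1) (by simpa using I.edist_le j))

lemma inv_eq_self {τ : Equiv.Perm P} (h : ∀ x, τ (τ x) = x) : τ⁻¹ = τ := by
  rw [inv_eq_iff_mul_eq_one]
  ext x
  rw [Equiv.Perm.mul_apply, h]; rfl

lemma Invs.apply (v : L2 P) (z : P) :
    (I.L v) z = letI := I.fin; ∑ j, (v z - v (I.t j z)) := by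
  letI := I.fin
  rw [← inner_dl, Invs.L, sum_apply, inner_sum]
  apply Finset.sum_congr rfl
  intro j _
  rw [inner_dl, sub_apply, lp.coeFn_sub, Pi.sub_apply, UU_apply, inv_eq_self (I.inv j)]
  rfl

lemma Invs.star_L : star I.L = I.L := by
  letI := I.fin
  rw [Invs.L, star_sum]
  apply Finset.sum_congr rfl
  intro j _
  rw [star_sub, star_one, star_UU, inv_eq_self (I.inv j)]

/-- the Laplacian in the algebra -/
noncomputable def Invs.lap : alg Gr := ⟨I.L, 2, I.prop⟩

end lap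

lemma Invs.isLaplacian {X : BoxSpace} (I : Invs X.graph) : X.IsLaplacian' I.lap := by
  intro v x
  show (I.L v) x = _
  rw [I.apply, I.finsum_eq]

lemma Invs.eq_lap {X : BoxSpace} (I : Invs X.graph) {D : X.algRoe} (hD : X.IsLaplacian' D) :
    D = I.lap := by
  apply Subtype.ext
  apply ContinuousLinearMap.ext
  intro v
  apply vec_ext
  intro x
  rw [hD v x]
  exact (I.isLaplacian v x).symm

lemma exists_invs_box (X : BoxSpace) : Nonempty (Invs X.graph) := by
  obtain ⟨e, he⟩ := pt_countable X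
  exact exists_invs X.graph e he X.deg (nbr_bound X)

namespace Sparse

variable {X : BoxSpace} {h : ℕ → ℕ} (s : Sparse X h)

/-- adjacency along the paths -/
def PA (p q : X.Pt) : Prop := ∃ m k, k + 1 ≤ m ∧
  ((p = s.y m k ∧ q = s.y m (k + 1)) ∨ (q = s.y m k ∧ p = s.y m (k + 1)))

lemma PA.symm {p q : X.Pt} (hpq : s.PA p q) : s.PA q p := by
  obtain ⟨m, k, hk, h⟩ := hpq
  exact ⟨m, k, hk, h.symm⟩

lemma PA.ne {p q : X.Pt} (hpq : s.PA p q) : p ≠ q := by
  obtain ⟨m, k, hk, ⟨rfl, rfl⟩ | ⟨rfl, rfl⟩⟩ := hpq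
  · intro e
    have := (s.y_inj' (by omega) hk e).2
    omega
  · intro e
    have := (s.y_inj' hk (by omega) e).2
    omega

lemma PA.reach {p q : X.Pt} (hpq : s.PA p q) : X.graph.Reachable p q := by
  obtain ⟨m, k, hk, ⟨rfl, rfl⟩ | ⟨rfl, rfl⟩⟩ := hpq <;> exact s.reach _ _ _

lemma PA.not_adj {p q : X.Pt} (hpq : s.PA p q) : ¬ X.graph.Adj p q := by
  intro h
  have h1 : X.graph.edist p q ≤ (1 : ℕ) := by
    rw [SimpleGraph.edist_eq_one_iff_adj.mpr h]; simp
  obtain ⟨m, k, hk, ⟨rfl, rfl⟩ | ⟨rfl, rfl⟩⟩ := hpq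
  · have := (s.y_inj (by omega) hk 1 (by omega) h1).2
    omega
  · have := (s.y_inj hk (by omega) 1 (by omega) h1).2
    omega

lemma nx_fin {e m k : ℕ} (he : e < 2) (hk : k ≤ m) (hne : nx e m k ≠ k) :
    (k + 1 ≤ m ∧ nx e m k = k + 1 ∧ (k + e) % 2 = 0) ∨
      (1 ≤ k ∧ nx e m k = k - 1 ∧ (k + e) % 2 = 1) := by
  unfold nx at *
  split_ifs at * <;> omega

lemma PA_of_sgf {e : ℕ} (he : e < 2) {p : X.Pt} (hp : s.sgf e p ≠ p) : s.PA p (s.sgf e p) := by
  rcases s.cases_y p with h | ⟨m, k, hk, rfl⟩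
  · exact absurd (s.sgf_fix e p h) hp
  · rw [s.sgf_val _ _ _ hk] at hp ⊢
    have hne : nx e m k ≠ k := fun h => hp (by rw [h])
    rcases nx_fin he hk hne with ⟨h1, h2, _⟩ | ⟨h1, h2, _⟩
    · rw [h2]
      exact ⟨m, k, h1, Or.inl ⟨rfl, rfl⟩⟩
    · rw [h2]
      refine ⟨m, k - 1, by omega, Or.inr ⟨rfl, ?_⟩⟩
      rw [Nat.sub_add_cancel h1]

lemma sgf_of_PA {p q : X.Pt} (hpq : s.PA p q) : ∃ e < 2, s.sgf e p = q := by
  obtain ⟨m, k, hk, ⟨rfl, rfl⟩ | ⟨rfl, rfl⟩⟩ := hpq
  · refine ⟨k % 2, by omega, ?_⟩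
    rw [s.sgf_val _ _ _ (by omega)]
    congr 1
    unfold nx
    split_ifs <;> omega
  · refine ⟨k % 2, by omega, ?_⟩
    rw [s.sgf_val _ _ _ (by omega)]
    congr 1
    unfold nx
    split_ifs <;> omega

lemma sgf_uniq {e e' : ℕ} (he : e < 2) (he' : e' < 2) {p : X.Pt} (hp : s.sgf e p ≠ p)
    (h : s.sgf e p = s.sgf e' p) : e = e' := by
  rcases s.cases_y p with h2 | ⟨m, k, hk, rfl⟩
  · exact absurd (s.sgf_fix e p h2) hp
  · rw [s.sgf_val _ _ _ hk] at hp h
    rw [s.sgf_val _ _ _ hk] at h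
    have h3 := (s.y_inj' (nx_le hk) (nx_le hk) h).2
    have hne : nx e m k ≠ k := fun h => hp (by rw [h])
    have hne' : nx e' m k ≠ k := by rw [← h3]; exact hne
    rcases nx_fin he hk hne with ⟨a1, a2, a3⟩ | ⟨a1, a2, a3⟩ <;>
      rcases nx_fin he' hk hne' with ⟨b1, b2, b3⟩ | ⟨b1, b2, b3⟩ <;> omega

/-- the extended graphs -/
def H (i : ℕ) : SimpleGraph (X.V i) where
  Adj a b := (X.G i).Adj a b ∨ s.PA ⟨i, a⟩ ⟨i, b⟩
  symm := ⟨fun _ _ h => h.imp SimpleGraph.Adj.symm (PA.symm s)⟩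
  loopless := ⟨fun a h => by
    rcases h with h | h
    · exact (X.G i).loopless.irrefl _ h
    · exact PA.ne s h rfl⟩

lemma PA_ncard (p : X.Pt) : {q | s.PA p q}.Finite ∧ {q | s.PA p q}.ncard ≤ 2 := by
  classical
  have : {q | s.PA p q} ⊆ (({s.sgf 0 p, s.sgf 1 p} : Finset X.Pt) : Set X.Pt) := by
    intro q hq
    obtain ⟨e, he, rfl⟩ := s.sgf_of_PA hq
    have : e = 0 ∨ e = 1 := by omega
    rcases this with rfl | rfl <;> simp
  refine ⟨(Finset.finite_toSet _).subset this, ?_⟩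
  refine (Set.ncard_le_ncard this (Finset.finite_toSet _)).trans ?_
  rw [Set.ncard_coe_finset]
  exact Finset.card_le_two

lemma H_new (i : ℕ) (a : X.V i) : {b | s.PA ⟨i, a⟩ ⟨i, b⟩}.ncard ≤ 2 := by
  have hinj : Function.Injective (fun b : X.V i => (⟨i, b⟩ : X.Pt)) :=
    fun b b' h => eq_of_heq (Sigma.mk.inj h).2
  rw [← Set.ncard_image_of_injective _ hinj]
  refine (Set.ncard_le_ncard ?_ (s.PA_ncard ⟨i, a⟩).1).trans (s.PA_ncard ⟨i, a⟩).2
  rintro _ ⟨b, hb, rfl⟩
  exact hb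

lemma H_deg (i : ℕ) (a : X.V i) : {b | (s.H i).Adj a b}.ncard ≤ X.deg + 2 := by
  have h1 : {b | (s.H i).Adj a b} = {b | (X.G i).Adj a b} ∪ {b | s.PA ⟨i, a⟩ ⟨i, b⟩} := rfl
  rw [h1]
  exact (Set.ncard_union_le _ _).trans (Nat.add_le_add (X.deg_le i a) (s.H_new i a))

/-- the extended box space -/
@[reducible] def ext : BoxSpace := withGraph X s.H (X.deg + 2) s.H_deg

lemma ext_adj {p q : X.Pt} : s.ext.graph.Adj p q ↔ X.graph.Adj p q ∨ s.PA p q := by
  constructor
  · rintro ⟨i, a, b, rfl, rfl, h | h⟩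
    · exact Or.inl ⟨i, a, b, rfl, rfl, h⟩
    · exact Or.inr h
  · rintro (⟨i, a, b, rfl, rfl, h⟩ | h)
    · exact ⟨i, a, b, rfl, rfl, Or.inl h⟩
    · obtain ⟨i, a⟩ := p
      obtain ⟨j, b⟩ := q
      have h1 : i = j := reach_fst X (PA.reach s h)
      subst h1
      exact ⟨i, a, b, rfl, rfl, Or.inr h⟩

lemma ext_le : X.graph ≤ s.ext.graph := fun _ _ h => (s.ext_adj).mpr (Or.inl h)

lemma ext_reach {p q : X.Pt} (hpq : s.ext.graph.Reachable p q) : X.graph.Reachable p q := by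
  obtain ⟨w⟩ := hpq
  induction w with
  | nil => exact SimpleGraph.Reachable.refl _
  | cons h _ ih =>
    refine SimpleGraph.Reachable.trans ?_ ih
    rcases (s.ext_adj).mp h with h | h
    · exact h.reachable
    · exact PA.reach s h

/-- the involutions of the extended graph -/
noncomputable def invs (I : Invs X.graph) : Invs s.ext.graph where
  J := I.J ⊕ Fin 2
  fin := letI := I.fin; inferInstance
  t := Sum.elim I.t (fun e => s.sg e)
  inv := by
    rintro (j | e) x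
    · exact I.inv j x
    · exact s.sgf_sgf e x
  adj := by
    rintro (j | e) x hx
    · exact s.ext_le (I.adj j x hx)
    · exact (s.ext_adj).mpr (Or.inr (s.PA_of_sgf e.2 hx))
  ex := by
    intro x y hxy
    rcases (s.ext_adj).mp hxy with h | h
    · obtain ⟨j, hj⟩ := I.ex x y h
      exact ⟨Sum.inl j, hj⟩
    · obtain ⟨e, he, h2⟩ := s.sgf_of_PA h
      exact ⟨Sum.inr ⟨e, he⟩, h2⟩
  uniq := by
    rintro (j | e) (j' | e') x hx h
    · rw [I.uniq j j' x hx h]
    · exfalso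
      have h1 := I.adj j x hx
      have h2 : s.PA x (s.sgf e' x) := s.PA_of_sgf e'.2 (by
        intro h3
        apply hx
        exact h.trans h3)
      have h3 : I.t j x = s.sgf e' x := h
      rw [h3] at h1
      exact PA.not_adj s h2 h1
    · exfalso
      have h3 : s.sgf e x = I.t j' x := h
      have h2 : s.PA x (s.sgf e x) := s.PA_of_sgf e.2 hx
      have h1 := I.adj j' x (by rw [← h3]; exact hx)
      rw [← h3] at h1
      exact PA.not_adj s h2 h1
    · have := s.sgf_uniq e.2 e'.2 hx h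
      rw [Fin.ext this]

lemma new_edges (i : ℕ) : ((s.H i).edgeSet \ (X.G i).edgeSet).ncard ≤ h i := by
  classical
  have hinj : Function.Injective (Sym2.map (fun b : X.V i => (⟨i, b⟩ : X.Pt))) :=
    Sym2.map.injective fun b b' h => eq_of_heq (Sigma.mk.inj h).2
  rw [← Set.ncard_image_of_injective _ hinj]
  have key : ∀ z ∈ (Sym2.map (fun b : X.V i => (⟨i, b⟩ : X.Pt))) ''
      ((s.H i).edgeSet \ (X.G i).edgeSet), ∃ m k, k + 1 ≤ m ∧ i = s.ix m ∧
        z = s(s.y m k, s.y m (k + 1)) := by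
    rintro _ ⟨z, ⟨h1, h2⟩, rfl⟩
    induction z using Sym2.ind with
    | _ a b =>
    rw [SimpleGraph.mem_edgeSet] at h1 h2
    rcases h1 with h1 | h1
    · exact absurd h1 h2
    · obtain ⟨m, k, hk, ⟨e1, e2⟩ | ⟨e1, e2⟩⟩ := h1
      · refine ⟨m, k, hk, ?_, ?_⟩
        · have := congrArg Sigma.fst e1
          rw [s.fst] at this
          exact this
        · simp only [Sym2.map_mk, e1, e2]
      · refine ⟨m, k, hk, ?_, ?_⟩
        · have := congrArg Sigma.fst e1
          rw [s.fst] at this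
          exact this
        · simp only [Sym2.map_mk, e1, e2]; exact Sym2.eq_swap
  by_cases hi : ∃ m, i = s.ix m
  · obtain ⟨m, hm⟩ := hi
    have hsub : (Sym2.map (fun b : X.V i => (⟨i, b⟩ : X.Pt))) ''
        ((s.H i).edgeSet \ (X.G i).edgeSet) ⊆
        (((Finset.range m).image fun k => s(s.y m k, s.y m (k + 1)) : Finset (Sym2 X.Pt)) :
          Set (Sym2 X.Pt)) := by
      intro z hz
      obtain ⟨m', k, hk, h1, h2⟩ := key z hz
      have : m = m' := s.mono.injective (hm.symm.trans h1)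
      subst this
      rw [Finset.mem_coe, Finset.mem_image]
      exact ⟨k, Finset.mem_range.mpr (by omega), h2.symm⟩
    refine (Set.ncard_le_ncard hsub (Finset.finite_toSet _)).trans ?_
    rw [Set.ncard_coe_finset]
    refine Finset.card_image_le.trans ?_
    rw [Finset.card_range, hm]
    exact s.hle m
  · have : (Sym2.map (fun b : X.V i => (⟨i, b⟩ : X.Pt))) ''
        ((s.H i).edgeSet \ (X.G i).edgeSet) = ∅ := by
      rw [Set.eq_empty_iff_forall_notMem]
      intro z hz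
      obtain ⟨m', k, hk, h1, h2⟩ := key z hz
      exact hi ⟨m', h1⟩
    rw [this]
    simp

lemma compat : s.geo.Compat s.ext.graph := by
  classical
  intro x y hxy
  rcases (s.ext_adj).mp hxy with h | ⟨m, k, hk, h⟩
  · left
    refine ⟨Equiv.swap x y, ?_, Equiv.swap_apply_left x y⟩
    intro z
    by_cases h1 : z = x
    · rw [h1, Equiv.swap_apply_left]
      exact (SimpleGraph.edist_eq_one_iff_adj.mpr h).le
    · by_cases h2 : z = y
      · rw [h2, Equiv.swap_apply_right]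
        exact (SimpleGraph.edist_eq_one_iff_adj.mpr h.symm).le
      · rw [Equiv.swap_apply_of_ne_of_ne h1 h2, SimpleGraph.edist_self]
        simp
  · right
    rcases h with ⟨e1, e2⟩ | ⟨e1, e2⟩
    · exact ⟨m, k, k + 1, by omega, hk, e1, e2⟩
    · exact ⟨m, k + 1, k, hk, by omega, e2, e1⟩

lemma isLap (I : Invs X.graph) : letI := I.fin; Geo.IsLap s.geo (s.invs I).L I.t := by
  letI := I.fin
  refine ⟨fun j => I.edist_le j, ?_⟩
  intro v z
  rw [Invs.apply]
  show ∑ j : I.J ⊕ Fin 2, (v z - v ((Sum.elim I.t (fun e : Fin 2 => s.sg e) :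
    I.J ⊕ Fin 2 → Equiv.Perm X.Pt) j z)) = _
  rw [Fintype.sum_sum_type, Fin.sum_univ_two, ← add_assoc]
  rfl

lemma L_one (I : Invs X.graph) (m : ℕ) : (s.invs I).L (s.geo.onev m) = 0 := by
  classical
  apply vec_ext
  intro z
  rw [Invs.apply]
  apply Finset.sum_eq_zero
  intro j _
  have h0 : s.bl ((s.invs I).t j z) = s.bl z := by
    refine (s.bl_congr (reach_fst X ?_)).symm
    apply s.ext_reach
    exact SimpleGraph.reachable_of_edist_ne_top (((s.invs I).edist_le j z).trans_lt (by simp)).ne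
  have h1 : (z ∈ (s.geo.fin m).toFinset) ↔ ((s.invs I).t j z ∈ (s.geo.fin m).toFinset) := by
    rw [Set.Finite.mem_toFinset, Set.Finite.mem_toFinset]
    show s.bl z = m ↔ s.bl ((s.invs I).t j z) = m
    rw [h0]
  rw [Geo.onev, vec_apply, vec_apply]
  by_cases h : z ∈ (s.geo.fin m).toFinset
  · rw [if_pos h, if_pos (h1.mp h), sub_self]
  · rw [if_neg h, if_neg (fun h' => h (h1.mpr h')), sub_self]

/-- no positive `c` works for the extended graph -/
theorem not_sos (I : Invs X.graph) {c : ℝ} (hc : 0 < c) {n : ℕ}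
    {ξ : Fin n → alg s.ext.graph}
    (hξ : (s.invs I).lap * (s.invs I).lap - (c : ℂ) • (s.invs I).lap = ∑ k, star (ξ k) * ξ k) :
    False := by
  letI := I.fin
  choose R hR using fun k => (ξ k).2
  set R0 : ℕ := 2 + ∑ k, R k with hR0
  obtain ⟨m1, hm1⟩ := exists_nat_gt (2 / c)
  set m : ℕ := 6 * R0 + m1 with hm
  have h1 : ∀ k, PropLE s.ext.graph (ξ k : L2 X.Pt →L[ℂ] L2 X.Pt) R0 := by
    intro k
    have h2 : PropLE s.ext.graph (ξ k : L2 X.Pt →L[ℂ] L2 X.Pt) (R k) := hR k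
    apply h2.mono
    have := Finset.single_le_sum (f := R) (fun i _ => Nat.zero_le _) (Finset.mem_univ k)
    omega
  have h2 := s.geo.no_sos (m := m) (R := R0) (by omega) (by omega) s.compat (s.isLap I)
    (s.invs I).prop (s.invs I).star_L
    (s.L_one I m) (c := c) (n := n) (ξ := fun k => (ξ k : L2 X.Pt →L[ℂ] L2 X.Pt)) h1 (by
      have e1 := congrArg (fun a : alg s.ext.graph => (a : L2 X.Pt →L[ℂ] L2 X.Pt)) hξ
      simp only [AddSubmonoidClass.coe_finsetSum] at e1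
      exact e1)
  rw [div_lt_iff₀ hc] at hm1
  have h3 : (m1 : ℝ) ≤ m := by exact_mod_cast (by omega : m1 ≤ m)
  nlinarith

/-- the extended graph keeps the spectral gap -/
theorem gap (I : Invs X.graph) (hgap : Gap X.graph I.lap) : Gap s.ext.graph (s.invs I).lap := by
  letI := I.fin
  refine gap_perturb s.ext_le I I.lap rfl hgap (fun e => s.sg e) (fun e x => s.sgf_sgf e x)
    (fun e x => (s.invs I).edist_le (Sum.inr e) x) (s.invs I).lap ?_
    {x | ∃ m k, k ≤ m ∧ x = s.y m k} ?_ s.bl s.bl_fin (fun e x => s.sgf_bl e x)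
    (fun e x => s.sgf_reach e x) s.sepK
  · show (∑ j : I.J ⊕ Fin 2, (1 - UU ((Sum.elim I.t (fun e : Fin 2 => s.sg e) :
      I.J ⊕ Fin 2 → Equiv.Perm X.Pt) j)) : L2 X.Pt →L[ℂ] L2 X.Pt)
      = (∑ j, (1 - UU (I.t j))) + _
    rw [Fintype.sum_sum_type]
    rfl
  · intro e x hx
    apply s.sgf_fix
    intro m k hk hxy
    exact hx ⟨m, k, hk, hxy⟩

end Sparse

end Pool.Agent.KS6_80.GT
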