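import Pool.Agent.KS6_80.GT.NoS

set_option autoImplicit false

/-!
# Final assembly
-/

namespace Pool.Agent.KS6_80.GT

open Pool.Agent.H494R3.GT
open scoped CStarAlgebra ComplexOrder

/-- The connected components of the graphs of `X` have unbounded size: for every `M` some vertex
`a` of some `X_i` lies in a component with at least `M` vertices. -/
def LargeComponents (X : BoxSpace) : Prop :=
  ∀ M : ℕ, ∃ (i : ℕ) (a : X.V i), M ≤ {b | (X.G i).Reachable a b}.ncard

/-- A sum of squares certificate implies the spectral gap. -/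
theorem gap_of_sos {P : Type} {Gr : SimpleGraph P} (I : Invs Gr) {c : ℝ} (hc : 0 < c) {n : ℕ}
    {ξ : Fin n → alg Gr} (hξ : I.lap * I.lap - (c : ℂ) • I.lap = ∑ k, star (ξ k) * ξ k) :
    Gap Gr I.lap := by
  classical
  letI hfin := I.fin
  refine ⟨c, hc, ?_⟩
  intro B _ π
  let _ : PartialOrder B := CStarAlgebra.spectralOrder B
  have : StarOrderedRing B := CStarAlgebra.spectralOrderedRing B
  have hmem : ∀ j, UU (I.t j) ∈ alg Gr := fun j => UU_mem (R := 1) (by simpa using I.edist_le j)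
  have hsum : I.lap = ∑ j, (1 - ⟨UU (I.t j), hmem j⟩ : alg Gr) := by
    apply Subtype.ext
    rw [AddSubmonoidClass.coe_finsetSum]
    rfl
  have h0 : 0 ≤ π I.lap := by
    rw [hsum, map_sum]
    apply Finset.sum_nonneg
    intro j _
    rw [map_sub, map_one]
    apply invol_nonneg'
    · rw [← map_mul, ← map_one π]
      congr 1
      apply Subtype.ext
      show UU (I.t j) * UU (I.t j) = 1
      rw [UU_mul]
      have : I.t j * I.t j = 1 := by
        ext x
        rw [Equiv.Perm.mul_apply, I.inv]; rfl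
      rw [this, UU_one]
    · rw [← map_star]
      congr 1
      apply Subtype.ext
      show star (UU (I.t j)) = UU (I.t j)
      rw [star_UU, inv_eq_self (I.inv j)]
  have h1 : (c : ℂ) • π I.lap ≤ π I.lap * π I.lap := by
    rw [← sub_nonneg, ← map_mul, ← map_smul, ← map_sub, hξ, map_sum]
    apply Finset.sum_nonneg
    intro k _
    rw [map_mul, map_star]
    exact star_mul_self_nonneg _
  have hsa : IsSelfAdjoint (π I.lap) := IsSelfAdjoint.of_nonneg h0
  intro r hr
  have hr' : r = (r.re : ℂ) := hsa.mem_spectrum_eq_re hr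
  have hr2 : r.re ∈ spectrum ℝ (π I.lap) := by
    rw [hr'] at hr
    exact (spectrum.algebraMap_mem_iff ℂ).mp hr
  rcases spec_gap h0 h1 _ hr2 with h | h
  · left; rw [hr', h]; simp
  · right; exact ⟨r.re, h, hr'⟩

lemma reach_set (X : BoxSpace) (i : ℕ) (a : X.V i) :
    {y | X.graph.Reachable ⟨i, a⟩ y}.Finite ∧
      {y | X.graph.Reachable ⟨i, a⟩ y}.ncard = {b | (X.G i).Reachable a b}.ncard := by
  have := X.finite i
  have hinj : Function.Injective (fun b : X.V i => (⟨i, b⟩ : X.Pt)) :=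
    fun b b' h => eq_of_heq (Sigma.mk.inj h).2
  have h : {y | X.graph.Reachable ⟨i, a⟩ y}
      = (fun b : X.V i => (⟨i, b⟩ : X.Pt)) '' {b | (X.G i).Reachable a b} := by
    ext ⟨j, b⟩
    constructor
    · intro h
      have h' : X.graph.Reachable ⟨i, a⟩ ⟨j, b⟩ := h
      have h1 : i = j := reach_fst X h'
      subst h1
      exact ⟨b, of_reach X h', rfl⟩
    · rintro ⟨b', h1, h2⟩
      have h3 : X.graph.Reachable ⟨i, a⟩ ⟨i, b'⟩ := reach_of X h1
      simp only at h2
      rw [h2] at h3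
      exact h3
  rw [h]
  exact ⟨(Set.toFinite _).image _, Set.ncard_image_of_injective _ hinj⟩

/-- bounded components: a certificate exists -/
theorem sos_of_bounded (X : BoxSpace) (hX : ¬ LargeComponents X) (D : X.algRoe)
    (hD : X.IsLaplacian' D) :
    ∃ c : ℝ, 0 < c ∧ ∃ (n : ℕ) (ξ : Fin n → X.algRoe),
      D * D - (c : ℂ) • D = ∑ k, star (ξ k) * ξ k := by
  rw [LargeComponents] at hX
  push Not at hX
  obtain ⟨M, hM⟩ := hX
  obtain ⟨I⟩ := exists_invs_box X
  have hDI := I.eq_lap hD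
  obtain ⟨ξ, hξ⟩ := sos_bdd I (M := M + 1) (by omega) (by
    rintro ⟨i, a⟩
    obtain ⟨h1, h2⟩ := reach_set X i a
    exact ⟨h1, by rw [h2]; exact (hM i a).le.trans (Nat.le_succ M)⟩)
  refine ⟨1 / (2 * ((M + 1 : ℕ) : ℝ) ^ 3), by positivity, 1, fun _ => ξ, ?_⟩
  rw [hDI, Finset.univ_unique, Finset.sum_singleton]
  exact hξ

/-- the sparse path theorem -/
theorem path_theorem (X : BoxSpace) (hX : LargeComponents X) (D : X.algRoe)
    (hD : X.IsLaplacian' D) (hT : Gap X.graph D) (h : ℕ → ℕ)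
    (hh : Filter.Tendsto h Filter.atTop Filter.atTop) :
    ∃ (H : ∀ i, SimpleGraph (X.V i)) (hd : ∀ i (a : X.V i), {b | (H i).Adj a b}.ncard ≤ X.deg + 2),
      (∀ i, X.G i ≤ H i) ∧
      (∀ i (a b : X.V i), (H i).Reachable a b → (X.G i).Reachable a b) ∧
      (∀ i, ((H i).edgeSet \ (X.G i).edgeSet).ncard ≤ h i) ∧
      ∃ D' : (withGraph X H (X.deg + 2) hd).algRoe,
        (withGraph X H (X.deg + 2) hd).IsLaplacian' D' ∧
        Gap (withGraph X H (X.deg + 2) hd).graph D' ∧
        ∀ (T : (withGraph X H (X.deg + 2) hd).algRoe) (c : ℝ), 0 < c →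
          ¬ ∃ (n : ℕ) (ξ : Fin n → (withGraph X H (X.deg + 2) hd).algRoe),
            D' * T * D' - (c : ℂ) • D' = ∑ k, star (ξ k) * ξ k := by
  have hX' : ∀ M : ℕ, ∃ (i : ℕ) (C : (X.G i).ConnectedComponent), M ≤ C.supp.ncard := by
    intro M
    obtain ⟨i, a, ha⟩ := hX M
    refine ⟨i, (X.G i).connectedComponentMk a, ?_⟩
    have : ((X.G i).connectedComponentMk a).supp = {b | (X.G i).Reachable a b} := by
      ext b
      rw [SimpleGraph.ConnectedComponent.mem_supp_iff, SimpleGraph.ConnectedComponent.eq]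
      exact ⟨SimpleGraph.Reachable.symm, SimpleGraph.Reachable.symm⟩
    rw [this]
    exact ha
  obtain ⟨s⟩ := exists_sparse X hX' h hh
  obtain ⟨I⟩ := exists_invs_box X
  have hDI := I.eq_lap hD
  refine ⟨s.H, s.H_deg, fun i a b hab => Or.inl hab, ?_, s.new_edges, (s.invs I).lap,
    (s.invs I).isLaplacian, ?_, ?_⟩
  · intro i a b hab
    exact of_reach X (s.ext_reach (reach_of s.ext hab))
  · apply s.gap I
    rw [← hDI]
    exact hT
  · rintro T c hc ⟨n, ξ, hξ⟩
    exact s.not_sos_strong I hc T hξ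

end Pool.Agent.KS6_80.GT
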