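import Pool.Agent.KS6_80.GT.Bdd

set_option autoImplicit false

/-!
# No certificate of the form `Δ T Δ - c Δ`
-/

namespace Pool.Agent.KS6_80.GT

open Pool.Agent.H494R3.GT
open scoped Pointwise

variable {P : Type}

theorem core {Gr : SimpleGraph P} {A : L2 P →L[ℂ] L2 P}
    {n : ℕ} {ξ : Fin n → (L2 P →L[ℂ] L2 P)} {R : ℕ} (hξ : ∀ k, PropLE Gr (ξ k) R)
    (hsos : A = ∑ k, star (ξ k) * ξ k)
    {u1 uK uK2 one : L2 P} (h1 : A one = 0)
    (hz : ∀ z, (∀ x, Gr.edist x z < R → u1 x = one x) ∨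
      (∃ κ : ℝ, ∀ x, Gr.edist x z < R → uK x = (κ : ℂ) * u1 x ∧ uK2 x = (κ : ℂ) ^ 2 * u1 x)) :
    0 ≤ (inner ℂ uK (A uK) - inner ℂ u1 (A uK2)).re := by
  have hadj : ∀ (T : L2 P →L[ℂ] L2 P) (v w : L2 P), inner ℂ v ((star T * T) w)
      = inner ℂ (T v) (T w) := by
    intro T v w
    rw [mul_ap, ContinuousLinearMap.star_eq_adjoint, ContinuousLinearMap.adjoint_inner_right]
  have hexp : ∀ v w : L2 P, inner ℂ v (A w) = ∑ k, inner ℂ (ξ k v) (ξ k w) := by
    intro v w
    rw [hsos]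
    simp only [sum_apply, inner_sum, hadj]
  have hone : ∀ k, ξ k one = 0 := by
    have h2 := hexp one one
    rw [h1, inner_zero_right] at h2
    have h3 : ∑ k, ‖ξ k one‖ ^ 2 = 0 := by
      have : ((∑ k, ‖ξ k one‖ ^ 2 : ℝ) : ℂ) = 0 := by
        rw [h2]
        push_cast
        apply Finset.sum_congr rfl
        intro k _
        rw [inner_self_eq_norm_sq_to_K]; rfl
      exact_mod_cast this
    rw [Finset.sum_eq_zero_iff_of_nonneg (fun k _ => by positivity)] at h3
    intro k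
    have := h3 k (Finset.mem_univ k)
    simpa using this
  rw [hexp, hexp, ← Finset.sum_sub_distrib, Complex.re_sum]
  apply Finset.sum_nonneg
  intro k _
  exact pos_core (hξ k) (hone k) hz

section main
variable (g : Geo P) {m R : ℕ}

/-- the strong obstruction -/
theorem no_sos_strong (hm : 6 * R ≤ m + 2) (hR : 2 ≤ R) {Gr : SimpleGraph P} (hG : g.Compat Gr)
    {J : Type} [Fintype J] {L : L2 P →L[ℂ] L2 P} {t : J → Equiv.Perm P} (hL : Geo.IsLap g L t)
    (hLp : PropLE Gr L 2) (hLs : star L = L) (hLone : L (g.onev m) = 0)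
    {T : L2 P →L[ℂ] L2 P} {RT : ℕ} (hT : PropLE Gr T RT) (hRT : RT + 2 ≤ R)
    {c : ℝ} {n : ℕ} {ξ : Fin n → (L2 P →L[ℂ] L2 P)}
    (hξ : ∀ k, PropLE Gr (ξ k) R)
    (hsos : L * T * L - (c : ℂ) • L = ∑ k, star (ξ k) * ξ k) : c * m ≤ 2 * ‖T‖ := by
  classical
  have hLadj : ∀ v w : L2 P, inner ℂ v (L w) = inner ℂ (L v) w := by
    intro v w
    conv_lhs => rw [← hLs]
    rw [ContinuousLinearMap.star_eq_adjoint, ContinuousLinearMap.adjoint_inner_right]
  have h := core hξ hsos (u1 := g.u1 m R) (uK := g.uK m R) (uK2 := g.uK2 m R)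
    (one := g.onev m) (by
      show L (T (L (g.onev m))) - (c : ℂ) • L (g.onev m) = 0
      rw [hLone]; simp)
    (by
      intro z
      by_cases hz : g.Near m R z
      · left; exact g.dich_near hG hz
      · right; exact g.dich_far hm hG hz)
  set u1 := g.u1 m R with hu1
  set uK := g.uK m R with huK
  set uK2 := g.uK2 m R with huK2
  have hm0 : 0 < m := by omega
  set y0 := g.yy m 0 with hy0
  set ym := g.yy m m with hym
  have hne : y0 ≠ ym := fun e => hm0.ne (g.yy_inj hm (Nat.zero_le _) le_rfl e)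
  have hn0 : g.Near m R y0 := Geo.near_yy R (Nat.zero_le m)
  have hnm : g.Near m R ym := Geo.near_yy R le_rfl
  have hL' : PropLE Gr L R := PropLE.mono hLp hR
  -- near: L u1 = 0
  have hLu1 : ∀ z, g.Near m R z → (L u1) z = 0 := by
    intro z hz
    rw [local_eq hL' (fun x hx => g.dich_near hG hz x hx), hLone]
    rfl
  -- term decomposition
  have hterm : ∀ (c' : ℝ) z, g.term L c' m R z =
      (starRingEnd ℂ ((L uK) z) * (L uK) z - starRingEnd ℂ ((L u1) z) * (L uK2) z)
      - c' * (starRingEnd ℂ ((L uK) z) * uK z - starRingEnd ℂ ((L u1) z) * uK2 z) :=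
    fun c' z => rfl
  -- B part
  set Bz : P → ℂ := fun z => starRingEnd ℂ ((L uK) z) * uK z - starRingEnd ℂ ((L u1) z) * uK2 z
    with hBz
  have hB : ∀ z, Bz z = g.term L 0 m R z - g.term L 1 m R z := by
    intro z
    rw [hterm, hterm, hBz]
    push_cast
    ring
  have hfar : ∀ c' : ℝ, ∀ z, ¬ g.Near m R z → g.term L c' m R z = 0 :=
    fun c' z hz => g.term_far hm hR hG hLp c' hz
  have hBout : ∀ z, z ∉ ({y0, ym} : Finset P) → Bz z = 0 := by
    intro z hz
    rw [Finset.mem_insert, Finset.mem_singleton, not_or] at hz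
    rw [hB]
    by_cases hzn : g.Near m R z
    · rw [(g.term_near hm hR hL 0 hzn).2.2 hz.1 hz.2, (g.term_near hm hR hL 1 hzn).2.2 hz.1 hz.2,
        sub_self]
    · rw [hfar 0 z hzn, hfar 1 z hzn, sub_self]
  have hBsum : ∑' z, Bz z = m := by
    rw [tsum_eq_sum hBout, Finset.sum_pair hne, hB, hB,
      (g.term_near hm hR hL 0 hn0).1 rfl, (g.term_near hm hR hL 1 hn0).1 rfl,
      (g.term_near hm hR hL 0 hnm).2.1 rfl, (g.term_near hm hR hL 1 hnm).2.1 rfl]
    push_cast
    ring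
  -- values of L uK
  have hsq : ∀ z, g.Near m R z → ((‖(L uK) z‖ ^ 2 : ℝ) : ℂ) = g.term L 0 m R z := by
    intro z hz
    rw [hterm, hLu1 z hz]
    push_cast
    rw [← Complex.conj_mul']
    simp
  have hLKout : ∀ z, g.Near m R z → z ≠ y0 → z ≠ ym → (L uK) z = 0 := by
    intro z hz h1 h2
    have h3 := hsq z hz
    rw [(g.term_near hm hR hL 0 hz).2.2 h1 h2] at h3
    have h4 : ‖(L uK) z‖ ^ 2 = 0 := by exact_mod_cast h3
    simpa using h4
  have hLK0 : ‖(L uK) y0‖ ^ 2 = 1 := by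
    have h3 := hsq y0 hn0
    rw [(g.term_near hm hR hL 0 hn0).1 rfl] at h3
    exact_mod_cast h3
  have hLKm : ‖(L uK) ym‖ ^ 2 = 1 := by
    have h3 := hsq ym hnm
    rw [(g.term_near hm hR hL 0 hnm).2.1 rfl] at h3
    push_cast at h3
    rw [zero_mul, sub_zero] at h3
    exact_mod_cast h3
  -- the vector w
  set w : L2 P := vec {y0, ym} (fun z => (L uK) z) with hw
  have hwz : ∀ z, w z = if z ∈ ({y0, ym} : Finset P) then (L uK) z else 0 := by
    intro z
    rw [hw, vec_apply]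
  have hwnear : ∀ z, g.Near m R z → w z = (L uK) z := by
    intro z hz
    rw [hwz]
    split_ifs with h1
    · rfl
    · rw [Finset.mem_insert, Finset.mem_singleton, not_or] at h1
      exact (hLKout z hz h1.1 h1.2).symm
  have hTL : PropLE Gr (T * L) R := PropLE.mono (PropLE.mul hT hLp) hRT
  have hTR : PropLE Gr T R := PropLE.mono hT (by omega)
  have hball : ∀ k ≤ m, ∀ x, Gr.edist x (g.yy m k) < R → g.Near m R x := by
    intro k hk x hx
    rcases Geo.edist_lemma hG hx with ⟨τ, hτ, e⟩ | ⟨m', h1, h2⟩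
    · rw [← e]
      exact ((Geo.near_yy 0 hk).move hτ).mono (by omega)
    · have : m' = m := by rw [← h1.bl, g.bly]
      rw [this] at h2
      exact h2
  have hTw0 : (T (L uK)) y0 = (T w) y0 :=
    local_eq hTR fun x hx => (hwnear x (hball 0 (Nat.zero_le m) x hx)).symm
  have hTwm : (T (L uK)) ym = (T w) ym :=
    local_eq hTR fun x hx => (hwnear x (hball m le_rfl x hx)).symm
  set Az : P → ℂ := fun z => starRingEnd ℂ ((L uK) z) * (T (L uK)) z
    - starRingEnd ℂ ((L u1) z) * (T (L uK2)) z with hAz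
  have hAout : ∀ z, z ∉ ({y0, ym} : Finset P) → Az z = 0 := by
    intro z hz
    rw [Finset.mem_insert, Finset.mem_singleton, not_or] at hz
    by_cases hzn : g.Near m R z
    · rw [hAz]
      simp only
      rw [hLu1 z hzn, hLKout z hzn hz.1 hz.2]
      simp
    · obtain ⟨κ, hκ⟩ := g.dich_far hm hG hzn
      have e1 : (L uK) z = κ * (L u1) z := by
        have : (L uK) z = (L ((κ : ℂ) • u1)) z := local_eq hL' fun x hx => by
          rw [(hκ x hx).1]; rfl
        rw [this, map_smul]; rfl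
      have e2 : (T (L uK)) z = κ * (T (L u1)) z := by
        have : ((T * L) uK) z = ((T * L) ((κ : ℂ) • u1)) z := local_eq hTL fun x hx => by
          rw [(hκ x hx).1]; rfl
        rw [mul_ap, map_smul, mul_ap] at this
        rw [this]; rfl
      have e3 : (T (L uK2)) z = κ ^ 2 * (T (L u1)) z := by
        have : ((T * L) uK2) z = ((T * L) (((κ : ℂ) ^ 2) • u1)) z := local_eq hTL fun x hx => by
          rw [(hκ x hx).2]; rfl
        rw [mul_ap, map_smul, mul_ap] at this
        rw [this]; rfl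
      rw [hAz]
      simp only
      rw [e1, e2, e3, map_mul, Complex.conj_ofReal]
      ring
  have hwin : inner ℂ w (T w) = ∑' z, Az z := by
    rw [tsum_eq_sum hAout, inner_re_eq, tsum_eq_sum (s := {y0, ym})]
    · apply Finset.sum_congr rfl
      intro z hz
      have hzn : g.Near m R z := by
        rw [Finset.mem_insert, Finset.mem_singleton] at hz
        rcases hz with rfl | rfl
        · exact hn0
        · exact hnm
      have hTz : (T (L uK)) z = (T w) z := by
        rw [Finset.mem_insert, Finset.mem_singleton] at hz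
        rcases hz with rfl | rfl
        · exact hTw0
        · exact hTwm
      rw [hAz]
      simp only
      rw [hLu1 z hzn, hwnear z hzn, hTz]
      simp
    · intro z hz
      rw [hwz, if_neg hz]
      simp
  have hwn : ‖w‖ ^ 2 = 2 := by
    have h1 : (inner ℂ w w : ℂ) = 2 := by
      rw [inner_re_eq, tsum_eq_sum (s := {y0, ym}), Finset.sum_pair hne, hwnear _ hn0,
        hwnear _ hnm, Complex.conj_mul', Complex.conj_mul']
      · have a1 : ((‖(L uK) y0‖ : ℂ)) ^ 2 = 1 := by exact_mod_cast hLK0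
        have a2 : ((‖(L uK) ym‖ : ℂ)) ^ 2 = 1 := by exact_mod_cast hLKm
        rw [a1, a2]; norm_num
      · intro z hz
        rw [hwz, if_neg hz]
        simp
    rw [inner_self_eq_norm_sq_to_K] at h1
    have h2 : ((‖w‖ ^ 2 : ℝ) : ℂ) = ((2 : ℝ) : ℂ) := by
      push_cast
      exact h1
    exact Complex.ofReal_injective h2
  have e : inner ℂ uK ((L * T * L - (c : ℂ) • L) uK) - inner ℂ u1 ((L * T * L - (c : ℂ) • L) uK2)
      = inner ℂ w (T w) - c * m := by
    have a1 : ∀ v v' : L2 P, inner ℂ v ((L * T * L - (c : ℂ) • L) v')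
        = inner ℂ (L v) (T (L v')) - c * inner ℂ (L v) v' := by
      intro v v'
      show inner ℂ v (L (T (L v')) - (c : ℂ) • L v') = _
      rw [inner_sub_right, inner_smul_right, hLadj, hLadj]
    rw [a1, a1, hwin, ← hBsum]
    rw [inner_re_eq, inner_re_eq, inner_re_eq, inner_re_eq]
    have b1 := (inner_summable (L uK) (T (L uK))).tsum_sub (inner_summable (L u1) (T (L uK2)))
    have b2 := (inner_summable (L uK) uK).tsum_sub (inner_summable (L u1) uK2)
    have b1' : ∑' z, Az z = ∑' z, (starRingEnd ℂ ((L uK) z)) * (T (L uK)) z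
        - ∑' z, (starRingEnd ℂ ((L u1) z)) * (T (L uK2)) z := b1
    have b2' : ∑' z, Bz z = ∑' z, (starRingEnd ℂ ((L uK) z)) * uK z
        - ∑' z, (starRingEnd ℂ ((L u1) z)) * uK2 z := b2
    rw [b1', b2']
    ring
  rw [e] at h
  have h2 : (inner ℂ w (T w) : ℂ).re ≤ 2 * ‖T‖ := by
    calc (inner ℂ w (T w) : ℂ).re ≤ ‖(inner ℂ w (T w) : ℂ)‖ := Complex.re_le_norm _
      _ ≤ ‖w‖ * ‖T w‖ := norm_inner_le_norm _ _
      _ ≤ ‖w‖ * (‖T‖ * ‖w‖) := by
          gcongr
          exact T.le_opNorm w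
      _ = ‖w‖ ^ 2 * ‖T‖ := by ring
      _ = 2 * ‖T‖ := by rw [hwn]
  have h3 : (inner ℂ w (T w) - (c : ℂ) * m : ℂ).re = (inner ℂ w (T w) : ℂ).re - c * m := by
    rw [Complex.sub_re]
    congr 1
    have : (c : ℂ) * m = ((c * m : ℝ) : ℂ) := by push_cast; ring
    rw [this, Complex.ofReal_re]
  rw [h3] at h
  linarith

end main

namespace Sparse

variable {X : BoxSpace} {h : ℕ → ℕ} (s : Sparse X h)

/-- no certificate `Δ T Δ - c Δ` for the extended graph -/
theorem not_sos_strong (I : Invs X.graph) {c : ℝ} (hc : 0 < c) (T : alg s.ext.graph) {n : ℕ}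
    {ξ : Fin n → alg s.ext.graph}
    (hξ : (s.invs I).lap * T * (s.invs I).lap - (c : ℂ) • (s.invs I).lap
      = ∑ k, star (ξ k) * ξ k) : False := by
  letI := I.fin
  choose R hR using fun k => (ξ k).2
  obtain ⟨RT, hRT⟩ := T.2
  set R0 : ℕ := 2 + RT + ∑ k, R k with hR0
  obtain ⟨m1, hm1⟩ := exists_nat_gt (2 * ‖(T : L2 X.Pt →L[ℂ] L2 X.Pt)‖ / c)
  set m : ℕ := 6 * R0 + m1 with hm
  have h1 : ∀ k, PropLE s.ext.graph (ξ k : L2 X.Pt →L[ℂ] L2 X.Pt) R0 := by
    intro k
    have h2 : PropLE s.ext.graph (ξ k : L2 X.Pt →L[ℂ] L2 X.Pt) (R k) := hR k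
    apply h2.mono
    have := Finset.single_le_sum (f := R) (fun i _ => Nat.zero_le _) (Finset.mem_univ k)
    omega
  have h2 := no_sos_strong s.geo (m := m) (R := R0) (by omega) (by omega) s.compat (s.isLap I)
    (s.invs I).prop (s.invs I).star_L
    (s.L_one I m) (T := (T : L2 X.Pt →L[ℂ] L2 X.Pt)) (RT := RT) hRT (by omega)
    (c := c) (n := n) (ξ := fun k => (ξ k : L2 X.Pt →L[ℂ] L2 X.Pt)) h1 (by
      have e1 := congrArg (fun a : alg s.ext.graph => (a : L2 X.Pt →L[ℂ] L2 X.Pt)) hξ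
      simp only [AddSubmonoidClass.coe_finsetSum] at e1
      exact e1)
  rw [div_lt_iff₀ hc] at hm1
  have h3 : (m1 : ℝ) ≤ m := by exact_mod_cast (by omega : m1 ≤ m)
  nlinarith

end Sparse

end Pool.Agent.KS6_80.GT
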