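import Pool.Graph.R_seed8.H494R3.GT.Geo
import Pool.Agent.KS6_80.GT.Box

set_option autoImplicit false

/-!
# Sparse paths in a box space with large components
-/

namespace Pool.Agent.KS6_80.GT

open Pool.Agent.H494R3.GT
open scoped Pointwise

/-- sparse sequences of points in large components -/
structure Sparse (X : BoxSpace) (h : ℕ → ℕ) where
  ix : ℕ → ℕ
  mono : StrictMono ix
  y : ℕ → ℕ → X.Pt
  fst : ∀ m k, (y m k).1 = ix m
  reach : ∀ m k k', X.graph.Reachable (y m k) (y m k')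
  sep : ∀ m, ∀ k ≤ m, ∀ k' ≤ m, X.graph.edist (y m k) (y m k') ≤ (m + 2 : ℕ) → k = k'
  big : ∀ m, ∃ S : Finset X.Pt, m ≤ S.card ∧ ∀ k, ∀ p ∈ S, X.graph.Reachable (y m k) p
  hle : ∀ m, m ≤ h (ix m)

theorem exists_sparse (X : BoxSpace)
    (hX : ∀ M : ℕ, ∃ (i : ℕ) (C : (X.G i).ConnectedComponent), M ≤ C.supp.ncard)
    (h : ℕ → ℕ) (hh : Filter.Tendsto h Filter.atTop Filter.atTop) : Nonempty (Sparse X h) := by
  classical
  have h1 : ∀ m : ℕ, ∃ᶠ i in Filter.atTop, m ≤ h i ∧ ∃ C : (X.G i).ConnectedComponent,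
      m * (X.deg + 1) ^ (m + 2) + m + 1 ≤ C.supp.ncard := by
    intro m
    rw [Filter.frequently_atTop]
    intro N
    obtain ⟨N', hN'⟩ := Filter.tendsto_atTop_atTop.mp hh m
    obtain ⟨i, C, hC⟩ := hX (m * (X.deg + 1) ^ (m + 2) + m + 1
      + ∑ i ∈ Finset.range (max N N'), Nat.card (X.V i))
    have hi : max N N' ≤ i := by
      by_contra hcon
      push Not at hcon
      have := X.finite i
      have h2 : C.supp.ncard ≤ Nat.card (X.V i) := Set.ncard_le_card _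
      have h3 := Finset.single_le_sum (f := fun i => Nat.card (X.V i)) (fun _ _ => Nat.zero_le _)
        (Finset.mem_range.mpr hcon)
      have h3' : Nat.card (X.V i) ≤ ∑ i ∈ Finset.range (max N N'), Nat.card (X.V i) := h3
      omega
    exact ⟨i, (le_max_left _ _).trans hi, hN' i ((le_max_right _ _).trans hi), C, by omega⟩
  obtain ⟨φ, hφ, h2⟩ := Filter.extraction_forall_of_frequently h1
  have h3 : ∀ m, ∃ (y : ℕ → X.Pt) (S : Finset X.Pt), (∀ k, (y k).1 = φ m) ∧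
      (∀ k k', X.graph.Reachable (y k) (y k')) ∧
      (∀ k ≤ m, ∀ k' ≤ m, X.graph.edist (y k) (y k') ≤ (m + 2 : ℕ) → k = k') ∧
      m ≤ S.card ∧ ∀ k, ∀ p ∈ S, X.graph.Reachable (y k) p := by
    intro m
    obtain ⟨_, C, hC⟩ := h2 m
    have := X.finite (φ m)
    have hfin : C.supp.Finite := Set.toFinite _
    set S : Finset X.Pt := hfin.toFinset.map ⟨fun v => (⟨φ m, v⟩ : X.Pt), fun a b hab =>
      eq_of_heq (Sigma.mk.inj hab).2⟩ with hS
    have hSc : S.card = C.supp.ncard := by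
      rw [hS, Finset.card_map, ← Set.ncard_eq_toFinset_card _ hfin]
    have hSr : ∀ p ∈ S, ∀ q ∈ S, X.graph.Reachable p q := by
      intro p hp q hq
      rw [hS, Finset.mem_map] at hp hq
      obtain ⟨a, ha, rfl⟩ := hp
      obtain ⟨b, hb, rfl⟩ := hq
      rw [Set.Finite.mem_toFinset] at ha hb
      apply reach_of
      have ha' : (X.G (φ m)).connectedComponentMk a = C := ha
      have hb' : (X.G (φ m)).connectedComponentMk b = C := hb
      exact SimpleGraph.ConnectedComponent.exact (ha'.trans hb'.symm)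
    have hSf : ∀ p ∈ S, p.1 = φ m := by
      intro p hp
      rw [hS, Finset.mem_map] at hp
      obtain ⟨a, _, rfl⟩ := hp
      rfl
    obtain ⟨y, hy, hyy⟩ := exists_far S (fun x y => X.graph.edist x y ≤ (m + 2 : ℕ))
      (fun x y hxy => by rw [SimpleGraph.edist_comm]; exact hxy) ((X.deg + 1) ^ (m + 2))
      (fun x => ball_bound X.graph X.deg (nbr_bound X) (m + 2) x) m (by rw [hSc]; omega)
    refine ⟨y, S, fun k => hSf _ (hy k), fun k k' => hSr _ (hy k) _ (hy k'), ?_, by omega,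
      fun k p hp => hSr _ (hy k) _ hp⟩
    intro k hk k' hk' h4
    by_contra hne
    exact hyy k hk k' hk' hne h4
  choose y S hy1 hy2 hy3 hy4 hy5 using h3
  exact ⟨⟨φ, hφ, y, hy1, hy2, hy3, fun m => ⟨S m, hy4 m, hy5 m⟩, fun m => (h2 m).1⟩⟩

namespace Sparse

variable {X : BoxSpace} {h : ℕ → ℕ} (s : Sparse X h)

lemma y_inj {m k m' k' : ℕ} (hk : k ≤ m) (hk' : k' ≤ m')
    (r : ℕ) (hr : r ≤ m + 2) (e : X.graph.edist (s.y m k) (s.y m' k') ≤ r) : m = m' ∧ k = k' := by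
  have h1 : X.graph.Reachable (s.y m k) (s.y m' k') :=
    SimpleGraph.reachable_of_edist_ne_top (e.trans_lt (ENat.natCast_lt_top r)).ne
  have h2 := reach_fst X h1
  rw [s.fst, s.fst] at h2
  have h3 := s.mono.injective h2
  subst h3
  exact ⟨rfl, s.sep m k hk k' hk' (e.trans (by exact_mod_cast hr))⟩

lemma y_inj' {m k m' k' : ℕ} (hk : k ≤ m) (hk' : k' ≤ m')
    (e : s.y m k = s.y m' k') : m = m' ∧ k = k' := by
  apply s.y_inj hk hk' 0 (Nat.zero_le _)
  rw [e, SimpleGraph.edist_self]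
  simp

open scoped Classical in
/-- the path involutions -/
noncomputable def sgf (e : ℕ) (x : X.Pt) : X.Pt :=
  if h : ∃ p : ℕ × ℕ, p.2 ≤ p.1 ∧ x = s.y p.1 p.2 then s.y h.choose.1 (nx e h.choose.1 h.choose.2)
  else x

lemma sgf_fix (e : ℕ) (x : X.Pt) (hx : ∀ m, ∀ k ≤ m, x ≠ s.y m k) : s.sgf e x = x := by
  rw [sgf, dif_neg]
  rintro ⟨p, hp, e⟩
  exact hx _ _ hp e

lemma sgf_val (e m k : ℕ) (hk : k ≤ m) : s.sgf e (s.y m k) = s.y m (nx e m k) := by
  have h : ∃ p : ℕ × ℕ, p.2 ≤ p.1 ∧ s.y m k = s.y p.1 p.2 := ⟨(m, k), hk, rfl⟩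
  rw [sgf, dif_pos h]
  have h1 := h.choose_spec
  obtain ⟨h2, h3⟩ := s.y_inj' hk h1.1 h1.2
  rw [← h2, ← h3]

lemma nx_nx {e m k : ℕ} (hk : k ≤ m) : nx e m (nx e m k) = k := by
  unfold nx
  split_ifs <;> omega

lemma cases_y (x : X.Pt) : (∀ m, ∀ k ≤ m, x ≠ s.y m k) ∨ ∃ m k, k ≤ m ∧ x = s.y m k := by
  by_cases h : ∀ m, ∀ k ≤ m, x ≠ s.y m k
  · exact Or.inl h
  · push Not at h
    obtain ⟨m, k, h1, h2⟩ := h
    exact Or.inr ⟨m, k, h1, h2⟩

lemma sgf_sgf (e : ℕ) (x : X.Pt) : s.sgf e (s.sgf e x) = x := by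
  rcases s.cases_y x with h | ⟨m, k, hk, rfl⟩
  · rw [s.sgf_fix e x h, s.sgf_fix e x h]
  · rw [s.sgf_val _ _ _ hk, s.sgf_val _ _ _ (nx_le hk), nx_nx hk]

/-- the path involutions -/
noncomputable def sg (e : ℕ) : Equiv.Perm X.Pt where
  toFun := s.sgf e
  invFun := s.sgf e
  left_inv := s.sgf_sgf e
  right_inv := s.sgf_sgf e

lemma exists_ge (n : ℕ) : ∃ m, n ≤ s.ix m := ⟨n, s.mono.id_le n⟩

open scoped Classical in
/-- index of a block -/
noncomputable def bl (x : X.Pt) : ℕ := Nat.find (s.exists_ge x.1)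

lemma bl_congr {x y : X.Pt} (h : x.1 = y.1) : s.bl x = s.bl y := by
  unfold bl
  congr 1
  rw [h]

lemma bl_y (m k : ℕ) : s.bl (s.y m k) = m := by
  classical
  rw [bl, Nat.find_eq_iff]
  rw [s.fst]
  refine ⟨le_rfl, fun n hn => ?_⟩
  exact not_le.mpr (s.mono hn)

lemma bl_le (x : X.Pt) : x.1 ≤ s.ix (s.bl x) := by
  classical
  exact Nat.find_spec (s.exists_ge x.1)

lemma bl_fin (N : ℕ) : {x | s.bl x < N}.Finite := by
  refine (fst_finite X (s.ix N + 1)).subset ?_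
  intro x hx
  have hx' : s.bl x < N := hx
  have h1 := s.bl_le x
  have h2 := s.mono hx'
  show x.1 < s.ix N + 1
  omega

lemma sgf_reach (e : ℕ) (x : X.Pt) : X.graph.Reachable x (s.sgf e x) := by
  rcases s.cases_y x with h | ⟨m, k, hk, rfl⟩
  · rw [s.sgf_fix e x h]
  · rw [s.sgf_val _ _ _ hk]
    exact s.reach _ _ _

lemma sgf_bl (e : ℕ) (x : X.Pt) : s.bl (s.sgf e x) = s.bl x :=
  (s.bl_congr (reach_fst X (s.sgf_reach e x))).symm

/-- permutations of displacement at most one -/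
def T1 (X : BoxSpace) : Set (Equiv.Perm X.Pt) := {τ | ∀ x, X.graph.edist x (τ x) ≤ 1}

lemma T1_pow (X : BoxSpace) (r : ℕ) : ∀ τ ∈ (T1 X) ^ r, ∀ x, X.graph.edist x (τ x) ≤ r := by
  induction r with
  | zero =>
    intro τ h x
    rw [pow_zero, Set.mem_one] at h
    rw [h, Equiv.Perm.one_apply, SimpleGraph.edist_self]
    simp
  | succ r ih =>
    intro τ h x
    rw [pow_succ, Set.mem_mul] at h
    obtain ⟨a, ha, b, hb, rfl⟩ := h
    rw [Equiv.Perm.mul_apply]
    refine (SimpleGraph.edist_triangle (v := b x)).trans ?_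
    rw [add_comm]
    push_cast
    exact add_le_add (ih a ha _) (hb x)

/-- the geometric data -/
noncomputable def geo : Geo X.Pt where
  bl := s.bl
  fin m := (s.bl_fin (m + 1)).subset fun x hx => by
    have hx' : s.bl x = m := hx
    show s.bl x < m + 1
    omega
  T := T1 X
  one := fun x => by rw [Equiv.Perm.one_apply, SimpleGraph.edist_self]; simp
  inv τ h x := by
    have := h (τ⁻¹ x)
    rw [show τ (τ⁻¹ x) = x by simp] at this
    rwa [SimpleGraph.edist_comm] at this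
  blT τ h x := by
    refine (s.bl_congr (reach_fst X ?_)).symm
    exact SimpleGraph.reachable_of_edist_ne_top ((h x).trans_lt (by simp)).ne
  yy := s.y
  bly := s.bl_y
  sep m k hk k' hk' τ hτ e := by
    apply s.sep m k hk k' hk'
    rw [← e]
    exact T1_pow X (m + 2) τ hτ _
  sg := s.sg
  sg_fix := s.sgf_fix
  sg_val := s.sgf_val

/-- the separation property needed for the spectral gap -/
lemma sepK (K : ℕ) : ∃ N : ℕ, ∃ g : ℕ → Equiv.Perm X.Pt,
      (∀ i < K, ∃ r : ℕ, ∀ x, X.graph.edist x (g i x) ≤ r) ∧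
      ∀ x ∈ {x | ∃ m k, k ≤ m ∧ x = s.y m k}, ∀ y ∈ {x | ∃ m k, k ≤ m ∧ x = s.y m k},
        N ≤ s.bl x → N ≤ s.bl y → ∀ i < K, ∀ j < K, g i x = g j y → i = j := by
  classical
  have h1 : ∀ m k : ℕ, ∃ t : ℕ → X.Pt, K ≤ m → (∀ i < K, X.graph.edist (s.y m k) (t i) ≤ K) ∧
      ∀ i < K, ∀ j < K, t i = t j → i = j := by
    intro m k
    by_cases hK : K ≤ m
    · obtain ⟨S, hS, hr⟩ := s.big m
      obtain ⟨t, ht⟩ := exists_near X.graph (s.y m k) K S (hr k) (hK.trans hS)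
      exact ⟨t, fun _ => ht⟩
    · exact ⟨fun _ => s.y 0 0, fun h => absurd h hK⟩
  choose t ht using h1
  let ι : Type := {p : ℕ × ℕ // 2 * K ≤ p.1 ∧ p.2 ≤ p.1}
  let a : ι → X.Pt := fun p => s.y p.1.1 p.1.2
  let b : ℕ → ι → X.Pt := fun i p => t p.1.1 p.1.2 i
  have hab : ∀ i < K, ∀ p : ι, X.graph.edist (a p) (b i p) ≤ K := fun i hi p =>
    (ht p.1.1 p.1.2 (by have := p.2.1; omega)).1 i hi
  have hpq : ∀ p q : ι, X.graph.edist (a p) (a q) ≤ (K + K : ℕ) → p = q := by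
    intro p q hpq
    obtain ⟨e1, e2⟩ := s.y_inj p.2.2 q.2.2 (K + K) (by have := p.2.1; omega) hpq
    exact Subtype.ext (Prod.ext e1 e2)
  have ha : Function.Injective a := by
    intro p q e
    apply hpq
    rw [e, SimpleGraph.edist_self]
    simp
  have hb' : ∀ i < K, ∀ j < K, ∀ p q : ι, b i p = b j q → p = q := by
    intro i hi j hj p q e
    apply hpq
    refine (SimpleGraph.edist_triangle (v := b i p)).trans ?_
    push_cast
    refine add_le_add (hab i hi p) ?_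
    rw [e, SimpleGraph.edist_comm]
    exact hab j hj q
  have hab' : ∀ i < K, ∀ p q : ι, a p = b i q → p = q := by
    intro i hi p q e
    apply hpq
    rw [e, SimpleGraph.edist_comm]
    refine (hab i hi q).trans ?_
    exact_mod_cast (by omega : K ≤ K + K)
  have hsw : ∀ i, ∃ g : Equiv.Perm X.Pt, i < K → (∀ p, g (a p) = b i p) ∧
      ∀ x, g x = x ∨ ∃ p, (x = a p ∧ g x = b i p) ∨ (x = b i p ∧ g x = a p) := by
    intro i
    by_cases hi : i < K
    · obtain ⟨g, h2, h3⟩ := exists_swap a (b i) ha (fun p q e => hb' i hi i hi p q e) (hab' i hi)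
      exact ⟨g, fun _ => ⟨h2, h3⟩⟩
    · exact ⟨1, fun h => absurd h hi⟩
  choose g hg using hsw
  refine ⟨2 * K, g, ?_, ?_⟩
  · intro i hi
    refine ⟨K, fun x => ?_⟩
    rcases (hg i hi).2 x with h2 | ⟨p, ⟨h2, h3⟩ | ⟨h2, h3⟩⟩
    · rw [h2, SimpleGraph.edist_self]; simp
    · rw [h3, h2]; exact hab i hi p
    · rw [h3, h2, SimpleGraph.edist_comm]; exact hab i hi p
  · rintro x ⟨m, k, hk, rfl⟩ y ⟨m', k', hk', rfl⟩ hx hy i hi j hj e
    rw [s.bl_y] at hx hy
    have e1 : g i (s.y m k) = b i ⟨(m, k), hx, hk⟩ := (hg i hi).1 ⟨(m, k), hx, hk⟩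
    have e2 : g j (s.y m' k') = b j ⟨(m', k'), hy, hk'⟩ := (hg j hj).1 ⟨(m', k'), hy, hk'⟩
    rw [e1, e2] at e
    have e3 := hb' i hi j hj _ _ e
    rw [← e3] at e
    exact (ht m k (by omega)).2 i hi j hj e

end Sparse

end Pool.Agent.KS6_80.GT
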